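import Pool.Agent.Lib_helper2.GKU.U9

/-!
# Growth from many primitive letters
-/

set_option autoImplicit false

universe u v

namespace Pool.Agent.GKV

open TensorProduct Pool.Agent.GK Pool.Agent.GKP Pool.Agent.GKF Pool.Agent.GKC Pool.Agent.GKU Filter Topology

section real
variable (k : Type u) [Field k] {H : Type v} [Ring H] [Bialgebra k H]

/-- Stretched exponential lower bounds along a subsequence give infinite growth rate. -/
theorem asm_L_top_pow {V : Submodule k H} {W q : ℕ} (hW : 1 ≤ W) (hq : 1 ≤ q)
    (hlo : ∀ m : ℕ, 1 ≤ m → 2 ^ m ≤ Module.finrank k ↥(V ^ (W * m ^ q))) :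
    asm_L k V = ⊤ := by
  set f : ℕ → ENNReal := fun n : ℕ =>
        ENNReal.ofReal
          (Real.log ((Module.finrank k ↥(V ^ n) : ℕ) : ℝ) / Real.log (n : ℝ)) with hf
  have hW0 : (0 : ℝ) < (W : ℝ) := by exact_mod_cast hW
  have hg : Tendsto (fun m : ℕ => W * m ^ q) atTop atTop := by
    refine tendsto_atTop_mono (fun m => ?_) tendsto_id
    calc m ≤ m ^ q := Nat.le_self_pow (by omega) m
      _ = 1 * m ^ q := (one_mul _).symm
      _ ≤ W * m ^ q := Nat.mul_le_mul_right _ hW
  -- the ratio along the subsequence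
  have hratio : Tendsto (fun m : ℕ => (Real.log (W : ℝ) + q * Real.log (m : ℝ)) /
      ((m : ℝ) * Real.log 2)) atTop (𝓝 0) := by
    have h1 : Tendsto (fun m : ℕ => Real.log (m : ℝ) ^ 1 / (Real.log 2 * (m : ℝ) + 0))
        atTop (𝓝 0) :=
      (Real.tendsto_pow_log_div_mul_add_atTop (Real.log 2) 0 1
        (Real.log_pos (by norm_num)).ne').comp tendsto_natCast_atTop_atTop
    have h2 : Tendsto (fun m : ℕ => Real.log (W : ℝ) / (Real.log 2 * (m : ℝ))) atTop (𝓝 0) :=
      tendsto_const_nhds.div_atTop
        (tendsto_natCast_atTop_atTop.const_mul_atTop (Real.log_pos (by norm_num)))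
    have h3 := h2.add (h1.const_mul (q : ℝ))
    simp only [mul_zero, add_zero] at h3
    refine h3.congr (fun m => ?_)
    rw [pow_one, add_div]
    ring
  have hpos : ∀ᶠ m : ℕ in atTop, 0 < (Real.log (W : ℝ) + q * Real.log (m : ℝ)) /
      ((m : ℝ) * Real.log 2) := by
    filter_upwards [eventually_ge_atTop 2] with m hm
    have hm0 : (0 : ℝ) < (m : ℝ) := by
      have : 0 < m := by omega
      exact_mod_cast this
    have hlm : 0 < Real.log (m : ℝ) := Real.log_pos (by exact_mod_cast hm)
    have hlW : 0 ≤ Real.log (W : ℝ) := Real.log_natCast_nonneg W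
    have hl2 : 0 < Real.log 2 := Real.log_pos (by norm_num)
    positivity
  have hinv : Tendsto (fun m : ℕ => ((Real.log (W : ℝ) + q * Real.log (m : ℝ)) /
      ((m : ℝ) * Real.log 2))⁻¹) atTop atTop := by
    refine Tendsto.inv_tendsto_nhdsGT_zero ?_
    rw [tendsto_nhdsWithin_iff]
    exact ⟨hratio, hpos⟩
  have hcomp : Tendsto (f ∘ fun m : ℕ => W * m ^ q) atTop (𝓝 ⊤) := by
    have h1 := ENNReal.tendsto_ofReal_atTop.comp hinv
    refine tendsto_of_tendsto_of_tendsto_of_le_of_le' h1 tendsto_const_nhds ?_
      (Eventually.of_forall (fun m => le_top))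
    filter_upwards [eventually_ge_atTop 2] with m hm
    simp only [Function.comp, hf]
    refine ENNReal.ofReal_le_ofReal ?_
    have hm0 : (0 : ℝ) < (m : ℝ) := by
      have : 0 < m := by omega
      exact_mod_cast this
    have hlm : 0 < Real.log (m : ℝ) := Real.log_pos (by exact_mod_cast hm)
    have hlW : 0 ≤ Real.log (W : ℝ) := Real.log_natCast_nonneg W
    rw [inv_div]
    have hlogn : Real.log ((W * m ^ q : ℕ) : ℝ) = Real.log (W : ℝ) + q * Real.log (m : ℝ) := by
      push_cast
      rw [Real.log_mul hW0.ne' (by positivity), Real.log_pow]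
    rw [hlogn]
    refine div_le_div_of_nonneg_right ?_ (by positivity)
    have h2 : ((2 : ℝ)) ^ m ≤ (Module.finrank k ↥(V ^ (W * m ^ q)) : ℝ) := by
      exact_mod_cast hlo m (by omega)
    have h3 := Real.log_le_log (by positivity) h2
    rw [Real.log_pow] at h3
    exact h3
  have h1 : limsup (f ∘ fun m : ℕ => W * m ^ q) atTop = ⊤ := hcomp.limsup_eq
  have h2 : limsup (f ∘ fun m : ℕ => W * m ^ q) atTop ≤ limsup f atTop := by
    rw [limsup_comp]
    exact limsup_le_limsup_of_le hg
  rw [h1, top_le_iff] at h2
  exact h2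

end real

section prim
variable (k : Type u) [Field k] {B : Type v} [Ring B] [Bialgebra k B] {m : ℕ} (c : Fin m → B)

/-- many independent primitive letters -/
theorem prim_many (hc : ∀ j, Coalgebra.comul (R := k) (c j) = c j ⊗ₜ[k] 1 + 1 ⊗ₜ[k] c j) (p : ℕ)
    (hp : p + 1 ≤ Module.finrank k ↥(Dg k c)) : 2 ^ p ≤ Module.finrank k ↥(Dg k c ^ p) := by
  classical
  have hF := isFilt_prim k c hc
  -- choice of the letters
  have key : ∀ q : ℕ, q + 1 ≤ Module.finrank k ↥(Dg k c) → ∃ j : Fin q → Fin m, ∀ i : Fin q,
      c (j i) ∉ Submodule.span k {(1 : B)} ⊔ Submodule.span k ((fun l => c (j l)) '' {l | l < i}) := by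
    intro q
    induction q with
    | zero => exact fun _ => ⟨Fin.elim0, fun i => i.elim0⟩
    | succ q ih =>
      intro hq
      obtain ⟨j, hj⟩ := ih (by omega)
      obtain ⟨t, ht⟩ : ∃ t : Fin m, c t ∉ Submodule.span k {(1 : B)} ⊔
          Submodule.span k (Set.range fun l => c (j l)) := by
        by_contra hcon
        push Not at hcon
        have h1 : Dg k c ≤ Submodule.span k {(1 : B)} ⊔ Submodule.span k (Set.range fun l => c (j l)) := by
          unfold Dg
          rw [Submodule.span_le, Set.insert_subset_iff]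
          refine ⟨Submodule.mem_sup_left (Submodule.mem_span_singleton_self 1), ?_⟩
          rintro _ ⟨t, rfl⟩
          exact hcon t
        have h2 : Submodule.span k {(1 : B)} ⊔ Submodule.span k (Set.range fun l => c (j l)) =
            Submodule.span k (Set.range (Fin.cons (1 : B) (fun l => c (j l)) : Fin (q + 1) → B)) := by
          rw [Fin.range_cons, Set.insert_eq, Submodule.span_union]
        rw [h2] at h1
        have h3 : Module.Finite k ↥(Submodule.span k (Set.range (Fin.cons (1 : B) (fun l => c (j l)) :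
            Fin (q + 1) → B))) := Module.Finite.span_of_finite k (Set.finite_range _)
        have h4 := (Submodule.finrank_mono h1).trans (finrank_range_le_card (R := k)
          (Fin.cons (1 : B) (fun l => c (j l)) : Fin (q + 1) → B))
        rw [Fintype.card_fin] at h4
        omega
      refine ⟨Fin.snoc j t, fun i => ?_⟩
      refine Fin.lastCases ?_ (fun i => ?_) i
      · rw [Fin.snoc_last]
        intro hmem
        refine ht ?_
        refine (le_of_eq_of_le rfl (sup_le_sup le_rfl (Submodule.span_mono ?_)) : Submodule.span k {(1 : B)} ⊔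
          Submodule.span k ((fun l => c ((Fin.snoc j t : Fin (q + 1) → Fin m) l)) '' {l | l < Fin.last q}) ≤
          Submodule.span k {(1 : B)} ⊔ Submodule.span k (Set.range fun l => c (j l))) hmem
        rintro _ ⟨l, hl, rfl⟩
        revert hl
        refine Fin.lastCases (fun hl => ?_) (fun l _ => ?_) l
        · exact absurd (show Fin.last q < Fin.last q from hl) (lt_irrefl _)
        · exact ⟨l, by simp only [Fin.snoc_castSucc]⟩
      · rw [Fin.snoc_castSucc]
        intro hmem
        refine hj i ?_
        refine (le_of_eq_of_le rfl (sup_le_sup le_rfl (Submodule.span_mono ?_)) : Submodule.span k {(1 : B)} ⊔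
          Submodule.span k ((fun l => c ((Fin.snoc j t : Fin (q + 1) → Fin m) l)) '' {l | l < i.castSucc}) ≤
          Submodule.span k {(1 : B)} ⊔ Submodule.span k ((fun l => c (j l)) '' {l | l < i})) hmem
        rintro _ ⟨l, hl, rfl⟩
        revert hl
        refine Fin.lastCases (fun hl => ?_) (fun l hl => ?_) l
        · exact absurd (show Fin.last q < i.castSucc from hl) (not_lt.2 (Fin.castSucc_lt_last i).le)
        · exact ⟨l, show l < i from Fin.castSucc_lt_castSucc_iff.1 hl, by simp only [Fin.snoc_castSucc]⟩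
  obtain ⟨j, hj⟩ := key p hp
  have hI : IsIndep k (fun n => Dg k c ^ n) (fun i => c (j i)) (fun _ => 1) := by
    refine ⟨fun _ => le_rfl, fun i => hF.prim (j i), fun i hi => hj i ?_⟩
    have h1 : Flt k (fun n => Dg k c ^ n) 1 ≤ Submodule.span k {(1 : B)} := by
      show Dg k c ^ 0 ≤ _
      rw [pow_zero, Submodule.one_eq_span]
    have h2 : (fun i => c (j i)) '' {l | l < i ∧ (fun _ : Fin p => 1) l = (fun _ : Fin p => 1) i} ⊆
        (fun l => c (j l)) '' {l | l < i} := Set.image_mono fun l hl => hl.1
    exact (sup_le_sup h1 (Submodule.span_mono h2)) hi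
  have h1 := ind_pr k hF hI
  rw [Finset.sum_const, Finset.card_univ, Fintype.card_fin, smul_eq_mul, mul_one] at h1
  exact h1

theorem finrank_mul_le' (A C : Submodule k B) (hA : A.FG) (hC : C.FG) :
    Module.finrank k ↥(A * C) ≤ Module.finrank k A * Module.finrank k C := by
  have iA : Module.Finite k A := Module.Finite.iff_fg.2 hA
  have iC : Module.Finite k C := Module.Finite.iff_fg.2 hC
  have h1 : A * C = LinearMap.range (Submodule.mulMap A C) := (Submodule.mulMap_range A C).symm
  rw [h1]
  refine (LinearMap.finrank_range_le _).trans ?_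
  rw [Module.finrank_tensorProduct]

/-- the dimension of a power -/
theorem finrank_pow_le' {V : Submodule k B} (hV : V.FG) (n : ℕ) :
    Module.finrank k ↥(V ^ n) ≤ Module.finrank k ↥V ^ n := by
  induction n with
  | zero =>
    rw [pow_zero, pow_zero, Submodule.one_eq_span]
    refine (finrank_span_le_card ({1} : Set B)).trans ?_
    simp
  | succ n ih =>
    rw [pow_succ, pow_succ]
    exact (finrank_mul_le' k _ _ (hV.pow n) hV).trans (Nat.mul_le_mul_right _ ih)

end prim

end Pool.Agent.GKV
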