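import Pool.Agent.Lib_helper2.GKV.V1

/-!
# Letters from a chain of subcoalgebras
-/

set_option autoImplicit false

universe u v

namespace Pool.Agent.GKV

open TensorProduct Pool.Agent.GK Pool.Agent.GKP Pool.Agent.GKU

section hopf
variable (k : Type u) [Field k] {H : Type v} [Ring H] [HopfAlgebra k H]

theorem lev_of_chain {E C : Submodule k H} {r : ℕ} {D : ℕ → Submodule k H} (hD0 : D 0 = E) (hDr : D r = C)
    (hmono : Monotone D) (hDC : ∀ i, D i ≤ C) (hDsub : ∀ i, IsSubcoalgebra k (D i))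
    (hDc : ∀ i, ∀ x ∈ D (i + 1), Coalgebra.comul (R := k) x ∈
        tsp k (D (i + 1)) (D 0) ⊔ tsp k (D 0) (D (i + 1)) ⊔ tsp k (D i) (D i))
    (hCf : C.FG) (h1C : (1 : H) ∈ C) (h1 : (1 : H) ∈ E)
    (hcomm : ∀ a ∈ E, ∀ b ∈ E, a * b = b * a) (n : ℕ) (hn : (br k E)^[n] C = ⊥) :
    ∃ (M : ℕ → Submodule k H) (Y : ℕ → ℕ → Submodule k H), Lev k (Kc k E) C n M Y r := by
  set K : Submodule k H := Kc k E with hK
  have hEs : IsSubcoalgebra k E := hD0 ▸ hDsub 0
  obtain ⟨hK1, hEK, hKK, hEn, -, hKs'⟩ := kc_facts k h1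
  have hKs : IsSubcoalgebra k K := hKs' hEs
  have hKc := Kc_comm k hcomm
  have hfin : ∀ i, (D i).FG := by
    intro i
    have := Module.Finite.iff_fg.2 hCf
    have := Submodule.finiteDimensional_of_le (hDC i)
    exact Module.Finite.iff_fg.1 this
  have hEf : E.FG := hD0 ▸ hfin 0
  have hDn : ∀ i, (br k E)^[n] (D i) = ⊥ := by
    intro i
    rw [eq_bot_iff, ← hn]
    exact iter_mono k (hDC i) n
  let X : ℕ → Submodule k H := fun i => cl k E (D i) n
  have hXbr : ∀ i, br k E (X i) ≤ X i := fun i => cl_br k (hDn i)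
  have hDX : ∀ i, D i ≤ X i := fun i => le_cl k E (D i) n
  have hEX : ∀ i, E ≤ X i := fun i => (hD0 ▸ hmono (Nat.zero_le i) : E ≤ D i).trans (hDX i)
  have hXf : ∀ i, (X i).FG := fun i => cl_fg k hEf (hfin i) n
  have hXKD : ∀ i, X i ≤ K * D i * K := fun i => iSup_le fun j => iter_le_KDK k h1 (D i) j.1
  have hXn : ∀ i, (br k E)^[n] (X i) = ⊥ := fun i => cl_iter_bot k (hDn i)
  -- `C ^ m` bounds
  have hEC : E ≤ C := hD0 ▸ hDC 0
  have hiterC : ∀ i j, (br k E)^[j] (D i) ≤ C ^ (j + 1) := by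
    intro i j
    induction j with
    | zero => rw [zero_add, pow_one]; exact hDC i
    | succ j ih =>
      rw [Function.iterate_succ_apply', br_le]
      intro a ha x hx
      refine Submodule.sub_mem _ ?_ ?_
      · rw [pow_succ']; exact Submodule.mul_mem_mul (hEC ha) (ih hx)
      · rw [pow_succ]; exact Submodule.mul_mem_mul (ih hx) (hEC ha)
  have hXC : ∀ i, X i ≤ C ^ (n + 1) := by
    intro i
    refine iSup_le fun j => (hiterC i j.1).trans ?_
    exact pow_le_pow_right' (Submodule.one_le.2 h1C) (by omega)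
  let M : ℕ → Submodule k H := fun i => K * D i * K
  have hKM : ∀ i, K * M i ≤ M i := by
    intro i
    show K * (K * D i * K) ≤ K * D i * K
    rw [← mul_assoc, ← mul_assoc]
    exact mul_le_mul' (mul_le_mul' hKK le_rfl) le_rfl
  have hMK : ∀ i, M i * K ≤ M i := by
    intro i
    show K * D i * K * K ≤ K * D i * K
    rw [mul_assoc]
    exact mul_le_mul' le_rfl hKK
  have hMX : ∀ i, M i ≤ X i * K := by
    intro i
    show K * D i * K ≤ X i * K
    refine (mul_le_mul' ((mul_le_mul' le_rfl (hDX i)).trans (Kc_mul_le k h1 (hXbr i))) le_rfl).trans ?_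
    rw [mul_assoc]
    exact mul_le_mul' le_rfl hKK
  have h1D : ∀ i, (1 : H) ∈ D i := fun i => (hD0 ▸ hmono (Nat.zero_le i) : E ≤ D i) h1
  have hKleM : ∀ i, K ≤ M i := by
    intro i a ha
    have := Submodule.mul_mem_mul (Submodule.mul_mem_mul ha (h1D i)) hK1
    rwa [mul_one, mul_one] at this
  have hMcom : ∀ i, ∀ y ∈ M (i + 1), Coalgebra.comul (R := k) y ∈
      tsp k (M (i + 1)) K ⊔ tsp k K (M (i + 1)) ⊔ tsp k (M i) (M i) := by
    intro i y hy
    have h2 := comul_sandwich k hKs (hDc i) y hy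
    have h3 : K * D 0 * K ≤ K := by
      rw [hD0]
      exact (mul_le_mul' ((mul_le_mul' le_rfl hEK).trans hKK) le_rfl).trans hKK
    have h4 : tsp k (K * D (i + 1) * K) (K * D 0 * K) ⊔ tsp k (K * D 0 * K) (K * D (i + 1) * K) ⊔
        tsp k (K * D i * K) (K * D i * K) ≤
        tsp k (M (i + 1)) K ⊔ tsp k K (M (i + 1)) ⊔ tsp k (M i) (M i) :=
      sup_le_sup (sup_le_sup (tsp_mono k le_rfl h3) (tsp_mono k h3 le_rfl)) le_rfl
    exact h4 h2
  -- the augmented spaces
  let X' : ℕ → Submodule k H := fun i => (X i).map (GKF.aug k)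
  have h1X : ∀ i, (1 : H) ∈ X i := fun i => hEX i h1
  have hX'X : ∀ i, X' i ≤ X i := by
    rintro i _ ⟨x, hx, rfl⟩
    rw [GKF.aug_apply]
    exact (X i).sub_mem hx ((X i).smul_mem _ (h1X i))
  have hXX' : ∀ i, X i ≤ Submodule.span k {1} ⊔ X' i := by
    intro i x hx
    have : x = Coalgebra.counit (R := k) x • (1 : H) + GKF.aug k x := by rw [GKF.aug_apply]; abel
    rw [this]
    exact Submodule.add_mem_sup (Submodule.smul_mem _ _ (Submodule.mem_span_singleton_self 1))
      (Submodule.mem_map_of_mem hx)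
  have hX'br : ∀ i, br k E (X' i) ≤ X' i := by
    intro i
    rw [br_le]
    rintro a ha _ ⟨x, hx, rfl⟩
    refine ⟨a * x - x * a, hXbr i (br_mem k ha hx), ?_⟩
    rw [GKF.aug_apply, GKF.aug_apply, map_sub, Bialgebra.counit_mul, Bialgebra.counit_mul, mul_comm, sub_self,
      zero_smul, sub_zero, mul_sub, _root_.sub_mul, mul_smul_comm, smul_mul_assoc, mul_one, one_mul]
    abel
  let Y : ℕ → ℕ → Submodule k H := fun i j => (br k E)^[j] (X' (i + 1))
  have hYs : ∀ i j, Y i (j + 1) = br k E (Y i j) := fun i j => Function.iterate_succ_apply' _ _ _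
  have hYbr : ∀ i j, br k E (Y i j) ≤ Y i j := by
    intro i j
    induction j with
    | zero => exact hX'br (i + 1)
    | succ j ih => rw [hYs]; exact br_mono k le_rfl ih
  have hYX : ∀ i j, Y i j ≤ X' (i + 1) := by
    intro i j
    induction j with
    | zero => exact le_rfl
    | succ j ih => rw [hYs]; exact (hYbr i j).trans ih
  have hYeps : ∀ i j, ∀ y ∈ Y i j, Coalgebra.counit (R := k) y = 0 := by
    intro i j y hy
    obtain ⟨x, _, rfl⟩ := hYX i j hy
    exact GKF.counit_aug k x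
  refine ⟨M, Y, ?_, ?_, hKleM, ?_, ?_, hYeps, ?_, ?_, ?_, ?_⟩
  · intro i j
    exact iter_fg k hEf ((hXf (i + 1)).map _) j
  · show K * D 0 * K ≤ K
    rw [hD0]
    exact (mul_le_mul' ((mul_le_mul' le_rfl hEK).trans hKK) le_rfl).trans hKK
  · intro i
    refine (hMX (i + 1)).trans ((mul_le_mul' (hXX' (i + 1)) le_rfl).trans ?_)
    rw [Submodule.sup_mul]
    refine sup_le ?_ le_sup_right
    refine le_trans ?_ le_sup_left
    rw [← Submodule.one_eq_span, one_mul]
  · intro x hx
    have hx' : x ∈ D r := by rw [hDr]; exact hx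
    have := Submodule.mul_mem_mul (Submodule.mul_mem_mul hK1 hx') hK1
    rwa [one_mul, mul_one] at this
  · intro i j a ha y hy
    rw [hYs]
    exact comm_Kc k h1 (hYbr i j) ha hy
  · intro i
    rw [eq_bot_iff]
    have := iter_mono k (E := E) (hX'X (i + 1)) n
    rwa [hXn] at this
  · intro i j
    exact (hYX i j).trans ((hX'X (i + 1)).trans (hXC (i + 1)))
  · intro i j
    induction j with
    | zero =>
      rintro _ ⟨x, hx, rfl⟩
      have hxM : x ∈ M (i + 1) := hXKD (i + 1) hx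
      have h2 := hMcom i x hxM
      have hMY : M (i + 1) ≤ K ⊔ Y i 0 * K := by
        refine (hMX (i + 1)).trans ((mul_le_mul' (hXX' (i + 1)) le_rfl).trans ?_)
        rw [Submodule.sup_mul]
        refine sup_le ?_ le_sup_right
        refine le_trans ?_ le_sup_left
        rw [← Submodule.one_eq_span, one_mul]
      have hKKM : tsp k K K ≤ tsp k (M i) (M i) := tsp_mono k (hKleM i) (hKleM i)
      have h3 : Coalgebra.comul (R := k) x ∈
          tsp k (Y i 0 * K) K ⊔ tsp k K (Y i 0 * K) ⊔ tsp k (M i) (M i) := by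
        have h4 : tsp k (M (i + 1)) K ⊔ tsp k K (M (i + 1)) ⊔ tsp k (M i) (M i) ≤
            tsp k (Y i 0 * K) K ⊔ tsp k K (Y i 0 * K) ⊔ tsp k (M i) (M i) := by
          refine sup_le (sup_le ?_ ?_) le_sup_right
          · refine (tsp_mono k hMY le_rfl).trans ?_
            rw [tsp_le]
            intro a ha b hb
            obtain ⟨c, hc, d, hd, rfl⟩ := Submodule.mem_sup.1 ha
            rw [TensorProduct.add_tmul]
            exact Submodule.add_mem _ (Submodule.mem_sup_right (hKKM (tmul_mem_tsp k hc hb)))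
              (Submodule.mem_sup_left (Submodule.mem_sup_left (tmul_mem_tsp k hd hb)))
          · refine (tsp_mono k le_rfl hMY).trans ?_
            rw [tsp_le]
            intro a ha b hb
            obtain ⟨c, hc, d, hd, rfl⟩ := Submodule.mem_sup.1 hb
            rw [TensorProduct.tmul_add]
            exact Submodule.add_mem _ (Submodule.mem_sup_right (hKKM (tmul_mem_tsp k ha hc)))
              (Submodule.mem_sup_left (Submodule.mem_sup_right (tmul_mem_tsp k ha hd)))
        exact h4 h2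
      rw [GKF.aug_apply, map_sub, map_smul, Bialgebra.comul_one, Algebra.TensorProduct.one_def]
      refine Submodule.sub_mem _ h3 (Submodule.smul_mem _ _ (Submodule.mem_sup_right ?_))
      exact tmul_mem_tsp k (hKleM i hK1) (hKleM i hK1)
    | succ j ih =>
      rw [hYs]
      exact comul_br k hEs hEK hKK hKc (hKM i) (hMK i) ih

end hopf

section mod
open Pool.Agent.GKF
variable (k : Type u) [Field k] {H : Type v} [Ring H] [Bialgebra k H]

theorem letters_of_lev' {K C : Submodule k H} {n : ℕ} {M : ℕ → Submodule k H} {Y : ℕ → ℕ → Submodule k H} {r : ℕ}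
    (hL : Lev k K C n M Y r) (hK1 : (1 : H) ∈ K) (hKK : K * K ≤ K) (hKs : IsSubcoalgebra k K) :
    ∃ (m : ℕ) (x : Fin m → H) (w : Fin m → ℤ), LetHyp k K x w ∧ (∀ j, w j ≤ (((n + 1) * 3 ^ (r + 1) : ℕ) : ℤ)) ∧
      (∀ j, x j ∈ C ^ (n + 1)) ∧ C ≤ Em k K x w (((n + 1) * 3 ^ (r + 1) : ℕ) : ℤ) := by
  obtain ⟨m, x, lv, hlv, hsp⟩ := exists_letters k (r * (n + 1) + n) (fun t => Y (t / (n + 1)) (t % (n + 1)))
    (fun t => hL.fg _ _)
  set w : Fin m → ℤ := fun l => (n + 1) * 3 ^ (lv l / (n + 1) + 1) - ((lv l % (n + 1) : ℕ) : ℤ) with hw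
  have hn' : 0 < n + 1 := Nat.succ_pos n
  have hmod : ∀ t : ℕ, t % (n + 1) ≤ n := fun t => Nat.lt_succ_iff.1 (Nat.mod_lt t hn')
  -- the levels
  have hY : ∀ i ≤ r, ∀ j ≤ n, Y i j ≤ Es k x w ((n + 1) * 3 ^ (i + 1) - j) := by
    intro i hi j hj
    have hdiv : (i * (n + 1) + j) / (n + 1) = i := by
      rw [Nat.mul_comm, Nat.mul_add_div hn', Nat.div_eq_of_lt (by omega), add_zero]
    have hmd : (i * (n + 1) + j) % (n + 1) = j := by
      rw [Nat.mul_comm, Nat.mul_add_mod, Nat.mod_eq_of_lt (by omega)]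
    have h1 := hsp (i * (n + 1) + j) (by nlinarith)
    simp only [hdiv, hmd] at h1
    refine h1.trans ?_
    rw [Submodule.span_le]
    rintro _ ⟨l, hl, rfl⟩
    have h2 : w l = (n + 1) * 3 ^ (i + 1) - j := by
      rw [hw]
      simp only [hl, hdiv, hmd]
    rw [← h2]
    exact Es_x k x w l
  have hKE : K ≤ Em k K x w 0 := by
    intro a ha
    have := Submodule.mul_mem_mul (Es_one k x w) ha
    rwa [one_mul] at this
  have hKpN : Kp k K ≤ Nm k K x w 0 := by
    intro a ha
    refine Submodule.mem_sup_right ?_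
    have := Submodule.mul_mem_mul (Es_one k x w) ha
    rwa [one_mul] at this
  have hWt0 : ∀ i, 0 ≤ Wt n i := by
    intro i
    unfold Wt
    split_ifs
    · exact le_rfl
    · positivity
  have hM : ∀ i ≤ r + 1, M i ≤ Em k K x w (Wt n i) := by
    intro i hi
    rcases i with _ | i
    · rw [Wt_zero]
      exact hL.M0.trans hKE
    · rw [Wt_succ]
      refine (hL.Ms i).trans (sup_le ?_ ?_)
      · exact hKE.trans (Em_mono k K x w (by positivity))
      · have := hY i (by omega) 0 (Nat.zero_le n)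
        rw [Nat.cast_zero, sub_zero] at this
        exact mul_le_mul' this le_rfl
  have hlvr : ∀ l, lv l / (n + 1) ≤ r := by
    intro l
    have h1 := (hlv l).1
    have h2 : lv l < (r + 1) * (n + 1) := by nlinarith
    exact Nat.lt_succ_iff.1 ((Nat.div_lt_iff_lt_mul hn').2 h2)
  refine ⟨m, x, w, ⟨hK1, hKK, hKs, ?_, ?_, ?_, ?_⟩, ?_, ?_, ?_⟩
  · intro l
    have h1 : ((lv l % (n + 1) : ℕ) : ℤ) ≤ n := by exact_mod_cast hmod (lv l)
    have h2 : (1 : ℤ) ≤ 3 ^ (lv l / (n + 1) + 1) := one_le_pow₀ (by norm_num)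
    have h3 : (0 : ℤ) ≤ n := Int.natCast_nonneg n
    show 1 ≤ (n + 1) * 3 ^ (lv l / (n + 1) + 1) - ((lv l % (n + 1) : ℕ) : ℤ)
    nlinarith
  · intro l
    exact hL.eps _ _ _ (hlv l).2
  · intro l a ha
    set i := lv l / (n + 1) with hi
    set j := lv l % (n + 1) with hj
    have hxl : x l ∈ Y i j := (hlv l).2
    have h1 : a * x l = (a * x l - x l * a) + x l * a := by abel
    rw [h1]
    have hwl : w l = (n + 1) * 3 ^ (i + 1) - (j : ℤ) := rfl
    rw [Nm, add_comm]
    rw [add_comm]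
    refine Submodule.add_mem_sup ?_ (Submodule.mul_mem_mul (Es_x k x w l) ha)
    have h2 := hL.com i j a ha.1 (x l) hxl
    rcases Nat.lt_or_ge j n with hjn | hjn
    · have h3 := hY i (hlvr l) (j + 1) hjn
      have h4 : w l - 1 = (n + 1) * 3 ^ (i + 1) - ((j + 1 : ℕ) : ℤ) := by
        rw [hwl]; push_cast; ring
      rw [h4]
      exact mul_le_mul' h3 le_rfl h2
    · have hjn' : j = n := le_antisymm (hmod _) hjn
      rw [hjn', hL.bot i, Submodule.mem_bot] at hxl
      rw [hxl, mul_zero, zero_mul, sub_zero]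
      exact Submodule.zero_mem _
  · intro l
    set i := lv l / (n + 1) with hi
    set j := lv l % (n + 1) with hj
    have hxl : x l ∈ Y i j := (hlv l).2
    have hwl : w l = (n + 1) * 3 ^ (i + 1) - (j : ℤ) := rfl
    have hYw : Y i j * K ≤ Em k K x w (w l) := by
      rw [hwl]
      exact mul_le_mul' (hY i (hlvr l) j (hmod _)) le_rfl
    have hxε : Coalgebra.counit (R := k) (x l) = 0 := hL.eps i j _ hxl
    rw [← aug_comul k hxε]
    have haugY : ∀ y ∈ Y i j * K, aug k y ∈ Y i j * K := by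
      intro y hy
      have : Coalgebra.counit (R := k) y = 0 := by
        induction hy using Submodule.mul_induction_on' with
        | mem_mul_mem z hz b hb => rw [Bialgebra.counit_mul, hL.eps i j z hz, zero_mul]
        | add y _ y' _ ih ih' => rw [map_add, ih, ih', add_zero]
      rw [aug_eq k this]
      exact hy
    have haugK : ∀ b ∈ K, aug k b ∈ Kp k K := by
      intro b hb
      refine ⟨?_, counit_aug k b⟩
      rw [aug_apply]
      exact K.sub_mem hb (K.smul_mem _ hK1)
    have haugM : ∀ b ∈ M i, aug k b ∈ M i := by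
      intro b hb
      rw [aug_apply]
      exact (M i).sub_mem hb ((M i).smul_mem _ (hL.MK i hK1))
    obtain ⟨t, ht, t3, ht3, h2⟩ := Submodule.mem_sup.1 (hL.comul i j (x l) hxl)
    obtain ⟨t1, ht1, t2, ht2, h3⟩ := Submodule.mem_sup.1 ht
    rw [← h2, ← h3, map_add, map_add]
    refine Submodule.add_mem _ (Submodule.add_mem _ ?_ ?_) ?_
    · refine Submodule.mem_sup_right ?_
      exact tsp_le_TZ2 k hYw hKpN (add_zero _) (map_tsp k haugY haugK ht1)
    · refine Submodule.mem_sup_left ?_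
      exact tsp_le_TZ2 k hKpN hYw (zero_add _) (map_tsp k haugK haugY ht2)
    · have h4 := tsp_le_TZ k (Em_mono k K x w) (hM i (by have := hlvr l; omega)) (hM i (by have := hlvr l; omega))
        (n := w l - 1) (by
          have := Wt_double n i j (hmod _)
          rw [hwl]
          linarith) (map_tsp k haugM haugM ht3)
      refine Submodule.mem_sup_left ?_
      exact TZ_mono k (fun s => Em_le_Nm k K x w s) (fun _ => le_rfl) _ (TZ_shift k (w l) h4)
  · intro l
    show (n + 1) * 3 ^ (lv l / (n + 1) + 1) - ((lv l % (n + 1) : ℕ) : ℤ) ≤ (((n + 1) * 3 ^ (r + 1) : ℕ) : ℤ)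
    push_cast
    have h1 : (3 : ℤ) ^ (lv l / (n + 1) + 1) ≤ 3 ^ (r + 1) :=
      pow_le_pow_right₀ (by norm_num) (by have := hlvr l; omega)
    have h2 : (0 : ℤ) ≤ (lv l : ℤ) % (n + 1) := Int.emod_nonneg _ (by positivity)
    have h3 : (0 : ℤ) ≤ n := Int.natCast_nonneg n
    nlinarith
  · intro l
    exact hL.pow _ _ (hlv l).2
  · refine hL.CM.trans ((hM r (by omega)).trans (Em_mono k K x w ?_))
    have h3 : (0 : ℤ) ≤ n := Int.natCast_nonneg n
    rcases Nat.eq_zero_or_pos r with h0 | h0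
    · rw [h0, Wt_zero]
      positivity
    · have : Wt n r = (n + 1) * 3 ^ r := by simp [Wt]; omega
      rw [this]
      push_cast
      refine mul_le_mul_of_nonneg_left ?_ (by linarith)
      exact pow_le_pow_right₀ (by norm_num) (by omega)

end mod

end Pool.Agent.GKV
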