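import Pool.Agent.Lib_helper2.GKV.V2
import Pool.Agent.Lib_helper67.GKC.G

/-!
# The coradical of a chain, nilpotency on a subalgebra, conjugations
-/

set_option autoImplicit false

universe u v

namespace Pool.Agent.GKV

open TensorProduct Pool.Agent.GK Pool.Agent.GKP Pool.Agent.GKU

section bialg
variable (k : Type u) [Field k] {H : Type v} [Ring H] [Bialgebra k H]

/-- a simple subcoalgebra in the next step of a chain -/
theorem simple_step {F P Q0 Q : Submodule k H} (hF : IsSimpleSubcoalgebra k F) (hQ : IsSubcoalgebra k Q)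
    (hQ0 : Q0 ≤ Q) (hc : ∀ x ∈ F, Coalgebra.comul (R := k) x ∈ tsp k P Q0 ⊔ tsp k Q0 P ⊔ tsp k Q Q) :
    F ≤ Q := by
  by_contra hFQ
  have hd : Disjoint F Q := by
    rcases hF.2.2 _ (cs_inf k hF.1 hQ) inf_le_left with h2 | h2
    · exact disjoint_iff.2 h2
    · exact absurd (by rw [← h2]; exact inf_le_right) hFQ
  obtain ⟨σ, h1, -, h3⟩ := exists_proj_disj k hd
  apply hFQ
  intro x hx
  have hx1 : FLAG_L k (Coalgebra.counit (R := k) ∘ₗ σ) x = x := by
    have h4 : FLAG_L k (Coalgebra.counit (R := k) ∘ₗ σ - Coalgebra.counit (R := k)) x = 0 := by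
      rw [FLAG_L_apply]
      refine rid_lTensor_zero k (F := F) (G := F) ?_ (hF.1 x hx)
      intro y hy
      simp [h1 y hy]
    rw [map_sub, LinearMap.sub_apply, FLAG_Lcounit] at h4
    exact sub_eq_zero.1 h4
  have hvQ : Van k Q (Coalgebra.counit (R := k) ∘ₗ σ) := by
    intro y hy
    simp [h3 y hy]
  have hvQ0 : Van k Q0 (Coalgebra.counit (R := k) ∘ₗ σ) := fun y hy => hvQ y (hQ0 hy)
  rw [← hx1, FLAG_L_apply]
  obtain ⟨t, ht, t3, ht3, h5⟩ := Submodule.mem_sup.1 (hc x hx)
  obtain ⟨t1, ht1, t2, ht2, h6⟩ := Submodule.mem_sup.1 ht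
  rw [← h5, ← h6, map_add, map_add, map_add, map_add, rid_lTensor_zero k hvQ0 ht1, rid_lTensor_zero k hvQ ht3,
    zero_add, add_zero]
  exact hQ0 (rid_lTensor_mem k ht2)

theorem exists_iter_singleton_U {U : Submodule k H} (a : H) (ha : ∀ x ∈ U, ∃ n : ℕ, ((cm k a)^[n]) x = 0)
    {D : Submodule k H} (hD : D.FG) (hDU : D ≤ U) :
    ∃ n : ℕ, (br k (Submodule.span k {a}))^[n] D = ⊥ := by
  classical
  obtain ⟨S, rfl⟩ := hD
  have hSU : ∀ s ∈ S, s ∈ U := fun s hs => hDU (Submodule.subset_span hs)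
  have ha' : ∀ s : H, ∃ n : ℕ, s ∈ S → ((cm k a)^[n]) s = 0 := by
    intro s
    by_cases hs : s ∈ S
    · obtain ⟨n, hn⟩ := ha s (hSU s hs)
      exact ⟨n, fun _ => hn⟩
    · exact ⟨0, fun h => absurd h hs⟩
  choose N hN using ha'
  refine ⟨∑ s ∈ S, N s, br_span_singleton_iter k a fun x hx => ?_⟩
  have h0 : ∀ m : ℕ, ((cm k a)^[m]) (0 : H) = 0 := by
    intro m
    have := map_zero ((cm k a) ^ m)
    rwa [Module.End.pow_apply] at this
  have h1 : Submodule.span k (S : Set H) ≤ LinearMap.ker ((cm k a) ^ (∑ s ∈ S, N s)) := by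
    rw [Submodule.span_le]
    intro s hs
    rw [SetLike.mem_coe, LinearMap.mem_ker, Module.End.pow_apply]
    have h2 : N s ≤ ∑ s ∈ S, N s := Finset.single_le_sum (fun _ _ => Nat.zero_le _) hs
    obtain ⟨c, hc⟩ := Nat.exists_eq_add_of_le h2
    rw [hc, add_comm, Function.iterate_add_apply, hN s hs, h0]
  have := h1 hx
  rwa [LinearMap.mem_ker, Module.End.pow_apply] at this

theorem br_le_U {U E D : Submodule k H} (hUU : U * U ≤ U) (hE : E ≤ U) (hD : D ≤ U) : br k E D ≤ U := by
  rw [br_le]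
  intro a ha x hx
  exact Submodule.sub_mem _ (hUU (Submodule.mul_mem_mul (hE ha) (hD hx)))
    (hUU (Submodule.mul_mem_mul (hD hx) (hE ha)))

/-- a finitely generated commutative space of elements with commutators which are locally nilpotent on `U` -/
theorem exists_iter_U {U A : Submodule k H} (hUU : U * U ≤ U) (hAU : A ≤ U)
    (hcomm : ∀ a ∈ A, ∀ b ∈ A, a * b = b * a)
    (hnil : ∀ a ∈ A, ∀ x ∈ U, ∃ n : ℕ, ((cm k a)^[n]) x = 0) {E : Submodule k H} (hE : E.FG) (hEA : E ≤ A) :
    ∀ {D : Submodule k H}, D.FG → D ≤ U → ∃ n : ℕ, (br k E)^[n] D = ⊥ := by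
  classical
  obtain ⟨S, rfl⟩ := hE
  induction S using Finset.induction_on with
  | empty =>
    intro D _ _
    refine ⟨1, ?_⟩
    rw [Function.iterate_one, Finset.coe_empty, Submodule.span_empty]
    exact Submodule.map₂_bot_left _ _
  | insert a S haS ih =>
    intro D hD hDU
    have hEA' : Submodule.span k {a} ⊔ Submodule.span k (S : Set H) ≤ A := by
      rwa [Finset.coe_insert, Submodule.span_insert] at hEA
    obtain ⟨n1, hn1⟩ := ih (le_sup_right.trans hEA') hD hDU
    have haA : a ∈ A := hEA' (Submodule.mem_sup_left (Submodule.mem_span_singleton_self a))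
    have hSfg : (Submodule.span k (S : Set H)).FG := ⟨S, rfl⟩
    have hSU : Submodule.span k (S : Set H) ≤ U := (le_sup_right.trans hEA').trans hAU
    obtain ⟨M, hM⟩ := exists_iter_singleton_U k a (hnil a haA) (cl_fg k hSfg hD n1)
      (cl_le k (br_le_U k hUU hSU le_rfl) hDU n1)
    refine ⟨M + n1, ?_⟩
    rw [Finset.coe_insert, Submodule.span_insert, eq_bot_iff]
    refine (iter_sup k (fun b hb c hc => hcomm b (hEA' (Submodule.mem_sup_left hb)) c
      (hEA' (Submodule.mem_sup_right hc))) D (M + n1)).trans ?_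
    refine iSup_le fun i => ?_
    by_cases hi : M ≤ i.1
    · have h1 : (br k (Submodule.span k (S : Set H)))^[M + n1 - i.1] D ≤ cl k (Submodule.span k (S : Set H)) D n1 := by
        by_cases h2 : M + n1 - i.1 ≤ n1
        · exact le_iSup (fun j : Fin (n1 + 1) => (br k (Submodule.span k (S : Set H)))^[j.1] D)
            ⟨M + n1 - i.1, by omega⟩
        · rw [iter_bot_of_le k (by omega : n1 ≤ M + n1 - i.1) hn1]
          exact bot_le
      refine (iter_mono k h1 i.1).trans ?_
      rw [iter_bot_of_le k hi hM]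
    · rw [iter_bot_of_le k (by omega : n1 ≤ M + n1 - i.1) hn1]
      have : ∀ j : ℕ, (br k (Submodule.span k {a}))^[j] (⊥ : Submodule k H) = ⊥ := by
        intro j
        induction j with
        | zero => rfl
        | succ j ih => rw [Function.iterate_succ_apply', ih, br_bot]
      rw [this]

end bialg

section hopf
variable (k : Type u) [Field k] {H : Type v} [Ring H] [HopfAlgebra k H]
open Pool.Agent.GKC

/-- the coradical of the last term of a chain -/
theorem chain_cor {D : ℕ → Submodule k H} (hmono : Monotone D) (hDsub : ∀ i, IsSubcoalgebra k (D i))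
    (hDc : ∀ i, ∀ x ∈ D (i + 1), Coalgebra.comul (R := k) x ∈
        tsp k (D (i + 1)) (D 0) ⊔ tsp k (D 0) (D (i + 1)) ⊔ tsp k (D i) (D i)) (r : ℕ) :
    D r ⊓ coradical k H ≤ D 0 := by
  refine (cs_main k (cs_inf k (hDsub r) (coradical_sub k)) inf_le_right).trans (sSup_le ?_)
  rintro F ⟨hF, hFr⟩
  have hFD : F ≤ D r := hFr.trans inf_le_left
  clear hFr
  induction r with
  | zero => exact hFD
  | succ r ih =>
    exact ih (simple_step k hF (hDsub r) (hmono (Nat.zero_le r)) fun x hx => hDc r x (hFD hx))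

theorem cj_mul_g (g h : GroupLike k H) (x : H) : cj k (g * h) x = cj k g (cj k h x) := by
  rw [cj_apply, cj_apply, cj_apply, mul_inv_rev, GroupLike.val_mul, GroupLike.val_mul]
  simp only [mul_assoc]

theorem cj_inv_cj (g : GroupLike k H) (x : H) : cj k g⁻¹ (cj k g x) = x := by
  rw [← cj_mul_g, inv_mul_cancel, cj_self]

theorem cj_cj_inv (g : GroupLike k H) (x : H) : cj k g (cj k g⁻¹ x) = x := by
  rw [← cj_mul_g, mul_inv_cancel, cj_self]

theorem cj_antipode (g : GroupLike k H) (x : H) :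
    HopfAlgebra.antipode k (cj k g x) = cj k g (HopfAlgebra.antipode k x) := by
  rw [cj_apply, cj_apply, HopfAlgebra.antipode_mul_antidistrib, HopfAlgebra.antipode_mul_antidistrib, mul_assoc]
  have h1 : HopfAlgebra.antipode k g.val = (g⁻¹).val := rfl
  have h2 : HopfAlgebra.antipode k (g⁻¹).val = g.val := by
    have h3 : HopfAlgebra.antipode k (g⁻¹).val = ((g⁻¹)⁻¹).val := rfl
    rw [h3, inv_inv]
  rw [h1, h2]

theorem cj_tsp (g : GroupLike k H) {P Q P' Q' : Submodule k H} (hP : P.map (cj k g) ≤ P') (hQ : Q.map (cj k g) ≤ Q')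
    {t : H ⊗[k] H} (ht : t ∈ tsp k P Q) : TensorProduct.map (cj k g) (cj k g) t ∈ tsp k P' Q' := by
  have h1 : tsp k P Q ≤ (tsp k P' Q').comap (TensorProduct.map (cj k g) (cj k g)) := by
    rw [tsp_le]
    intro a ha b hb
    rw [Submodule.mem_comap, TensorProduct.map_tmul]
    exact tmul_mem_tsp k (hP (Submodule.mem_map_of_mem ha)) (hQ (Submodule.mem_map_of_mem hb))
  exact h1 ht

theorem cj_sub (g : GroupLike k H) {P : Submodule k H} (hP : IsSubcoalgebra k P) :
    IsSubcoalgebra k (P.map (cj k g)) := by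
  rintro _ ⟨x, hx, rfl⟩
  rw [cj_comul]
  exact cj_tsp k g le_rfl le_rfl (hP x hx)

theorem cj_br {E : Submodule k H} (g : GroupLike k H) (hE : E.map (cj k g⁻¹) ≤ E) (X : Submodule k H) :
    br k E (X.map (cj k g)) ≤ (br k E X).map (cj k g) := by
  rw [br_le]
  rintro a ha _ ⟨x, hx, rfl⟩
  refine ⟨_, br_mem k (hE (Submodule.mem_map_of_mem ha)) hx, ?_⟩
  rw [map_sub, cj_mul, cj_mul, cj_cj_inv]

theorem cj_br_iter {E : Submodule k H} (g : GroupLike k H) (hE : E.map (cj k g⁻¹) ≤ E) (X : Submodule k H) (n : ℕ) :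
    (br k E)^[n] (X.map (cj k g)) ≤ ((br k E)^[n] X).map (cj k g) := by
  induction n with
  | zero => exact le_rfl
  | succ n ih =>
    rw [Function.iterate_succ_apply', Function.iterate_succ_apply']
    exact (br_mono k le_rfl ih).trans (cj_br k g hE _)

end hopf

end Pool.Agent.GKV
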