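import Pool.Agent.Lib_helper2.GKV.V3

/-!
# Growth along the orbits of a chain
-/

set_option autoImplicit false

universe u v

namespace Pool.Agent.GKV

open TensorProduct Pool.Agent.GK Pool.Agent.GKP Pool.Agent.GKU

section bialg
variable (k : Type u) [Field k] {H : Type v} [Ring H] [Bialgebra k H]

/-- a chain of subcoalgebras over `E` -/
structure Chn (E : Submodule k H) (D : ℕ → Submodule k H) : Prop where
  zero : D 0 = E
  mono : Monotone D
  fg : ∀ i, (D i).FG
  sub : ∀ i, IsSubcoalgebra k (D i)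
  com : ∀ i, ∀ x ∈ D (i + 1), Coalgebra.comul (R := k) x ∈
        tsp k (D (i + 1)) E ⊔ tsp k E (D (i + 1)) ⊔ tsp k (D i) (D i)

variable {k}

theorem Chn.le {E : Submodule k H} {D : ℕ → Submodule k H} (h : Chn k E D) (i : ℕ) : E ≤ D i :=
  h.zero ▸ h.mono (Nat.zero_le i)

/-- the constant chain -/
theorem Chn.const {E : Submodule k H} (hf : E.FG) (hs : IsSubcoalgebra k E) : Chn k E (fun _ => E) where
  zero := rfl
  mono := fun _ _ _ => le_rfl
  fg := fun _ => hf
  sub := fun _ => hs
  com := fun _ x hx => Submodule.mem_sup_right (hs x hx)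

/-- a new top -/
def ext (D : ℕ → Submodule k H) (C : Submodule k H) (r : ℕ) : ℕ → Submodule k H := fun i => if i ≤ r then D i else C

theorem ext_succ (D : ℕ → Submodule k H) (C : Submodule k H) (r : ℕ) : ext D C r (r + 1) = C := by
  simp [ext]

theorem ext_of_le {D : ℕ → Submodule k H} {C : Submodule k H} {r i : ℕ} (h : i ≤ r) : ext D C r i = D i := by
  simp [ext, h]

theorem ext_of_lt {D : ℕ → Submodule k H} {C : Submodule k H} {r i : ℕ} (h : r < i) : ext D C r i = C := by
  simp [ext]
  omega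

theorem ext_cases (P : Submodule k H → Prop) {D : ℕ → Submodule k H} {C : Submodule k H} {r : ℕ}
    (hD : ∀ i, P (D i)) (hC : P C) (i : ℕ) : P (ext D C r i) := by
  rcases Nat.lt_or_ge r i with h | h
  · rw [ext_of_lt h]; exact hC
  · rw [ext_of_le h]; exact hD i

theorem Chn.ext {E : Submodule k H} {D : ℕ → Submodule k H} (h : Chn k E D) {C : Submodule k H} {r : ℕ}
    (hCf : C.FG) (hCs : IsSubcoalgebra k C) (hDC : D r ≤ C) (hc : ∀ x ∈ C, Coalgebra.comul (R := k) x ∈
        tsp k C E ⊔ tsp k E C ⊔ tsp k (D r) (D r)) : Chn k E (GKV.ext D C r) where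
  zero := by rw [ext_of_le (Nat.zero_le r)]; exact h.zero
  mono := by
    intro a b hab
    rcases Nat.lt_or_ge r b with hb | hb
    · rw [ext_of_lt hb]
      rcases Nat.lt_or_ge r a with ha | ha
      · rw [ext_of_lt ha]
      · rw [ext_of_le ha]
        exact (h.mono ha).trans hDC
    · rw [ext_of_le hb, ext_of_le (hab.trans hb)]
      exact h.mono hab
  fg := ext_cases (fun X => X.FG) h.fg hCf
  sub := ext_cases (fun X => IsSubcoalgebra k X) h.sub hCs
  com := by
    intro i x hx
    rcases Nat.lt_trichotomy i r with hi | rfl | hi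
    · rw [ext_of_le (by omega : i + 1 ≤ r)] at hx ⊢
      rw [ext_of_le hi.le]
      exact h.com i x hx
    · rw [ext_succ] at hx ⊢
      rw [ext_of_le le_rfl]
      exact hc x hx
    · rw [ext_of_lt (by omega : r < i + 1)] at hx ⊢
      rw [ext_of_lt hi]
      exact Submodule.mem_sup_right (hCs x hx)

end bialg

section hopf
variable (k : Type u) [Field k] {H : Type v} [Ring H] [HopfAlgebra k H]
open Pool.Agent.GKC Pool.Agent.GKF

/-- the base of the chains -/
structure Bas (E : Submodule k H) : Prop where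
  fg : E.FG
  sub : IsSubcoalgebra k E
  one : (1 : H) ∈ E
  cor : E ≤ coradical k H
  ant : ∀ x ∈ E, HopfAlgebra.antipode k x ∈ E
  comm : ∀ a ∈ E, ∀ b ∈ E, a * b = b * a

variable {k}

theorem chn_inf {E : Submodule k H} (hE : Bas k E) {D : ℕ → Submodule k H} (h : Chn k E D) (r : ℕ) :
    D r ⊓ coradical k H = E := by
  refine le_antisymm ?_ (le_inf (h.le r) hE.cor)
  have := chain_cor k h.mono h.sub (fun i x hx => by rw [h.zero]; exact h.com i x hx) r
  rwa [h.zero] at this

theorem chn_pre {E : Submodule k H} (hE : Bas k E) {D : ℕ → Submodule k H} (h : Chn k E D) (r : ℕ) :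
    Pre k (D r) where
  fg := h.fg r
  sub := h.sub r
  one := h.le r hE.one
  ant := by
    rw [chn_inf hE h]
    exact hE.ant

/-- many dimensions of the last term of a chain give growth -/
theorem chn_growth (hA : IsHopfSubalgebra k (coradical k H)) {E : Submodule k H} (hE : Bas k E)
    {D : ℕ → Submodule k H} (h : Chn k E D) (r n : ℕ) (hn : (br k E)^[n] (D r) = ⊥) (p : ℕ)
    (hp : p ^ ((n + 1) * 3 ^ (r + 1)) * Module.finrank k E < Module.finrank k ↥(D r)) :
    2 ^ p ≤ Module.finrank k ↥(D r ^ (2 * (n + 1) * (((n + 1) * 3 ^ (r + 1) + 1) * p + 1))) := by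
  have hC := chn_pre hE h r
  have hinf := chn_inf hE h r
  set W : ℕ := (n + 1) * 3 ^ (r + 1) with hW
  -- cut the chain
  obtain ⟨M, Y, hL⟩ := lev_of_chain k (E := E) (C := D r) (r := r) (D := fun i => D (min i r))
    (by simp [h.zero]) (by simp) (fun a b hab => h.mono (min_le_min hab le_rfl))
    (fun i => h.mono (min_le_right i r)) (fun i => h.sub _) (by
      intro i x hx
      simp only [Nat.zero_min, h.zero] at hx ⊢
      rcases Nat.lt_or_ge i r with hi | hi
      · rw [min_eq_left (by omega : i + 1 ≤ r)] at hx ⊢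
        rw [min_eq_left hi.le]
        exact h.com i x hx
      · rw [min_eq_right (by omega : r ≤ i + 1)] at hx ⊢
        rw [min_eq_right hi]
        exact Submodule.mem_sup_right (h.sub r x hx)) (h.fg r) hC.one hE.one hE.comm n hn
  have hctx := ctx_of_pre k hA hC
  rw [hinf] at hctx
  obtain ⟨m, x, w, hlet, hwW, hx, hCW⟩ := letters_of_lev' k hL hctx.hK.one_mem hctx.hK.mul_le hctx.hK.sub
  obtain ⟨B, _, _, q, _, hqc, hq⟩ := exists_quot k (isFW_mod k hlet)
  have hEc : E = D r ⊓ coradical k H := hinf.symm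
  have hlet' : LetHyp k (Kc k (D r ⊓ coradical k H)) x w := by rw [hinf]; exact hlet
  have hCW' : D r ≤ Em k (Kc k (D r ⊓ coradical k H)) x w (W : ℕ) := by rw [hinf]; exact hCW
  have hq' : ∀ f, q f = 0 ↔ Null k (Nm k (Kc k (D r ⊓ coradical k H)) x w) x w f := by rw [hinf]; exact hq
  obtain ⟨hb1, hb2⟩ := count_bounds k hA hC hlet' hx hCW' q hq'
  set cB : Fin m → B := fun j => q (FreeAlgebra.ι k j) with hcB
  have hfinB : ∀ n, Module.Finite k ↥(Dg k cB ^ n) := fun n => Module.Finite.iff_fg.2 ((Dg_fg k cB).pow n)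
  have hfinE : ∀ s, Module.Finite k ↥(Es k cB w s) := fun s => Module.Finite.iff_fg.2 (Es_fg' k cB hlet.w1 s)
  have h1 := hb1 1
  rw [pow_one, pow_one, mul_one, hinf] at h1
  have h2 : Module.finrank k ↥(Es k cB w (W : ℕ)) ≤ Module.finrank k ↥(Dg k cB) ^ W :=
    (Submodule.finrank_mono (Es_le_Dg k cB hlet.w1 W)).trans (finrank_pow_le' k (Dg_fg k cB) W)
  have h3 : p + 1 ≤ Module.finrank k ↥(Dg k cB) := by
    by_contra hcon
    have h4 : Module.finrank k ↥(Dg k cB) ≤ p := by omega
    have h5 : Module.finrank k ↥(D r) ≤ p ^ W * Module.finrank k E :=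
      h1.trans (Nat.mul_le_mul_right _ (h2.trans (Nat.pow_le_pow_left h4 W)))
    omega
  have h4 := prim_many k cB hqc p h3
  have h5 : Module.finrank k ↥(Dg k cB ^ p) ≤ Module.finrank k ↥(Es k cB w (((W + 1) * p : ℕ) : ℤ)) := by
    refine Submodule.finrank_mono ((pow_le_Es k cB w hwW p).trans (Es_mono k cB w ?_))
    push_cast
    nlinarith [Int.natCast_nonneg p]
  have h1fg : (1 : Submodule k H).FG := by
    rw [Submodule.one_eq_span]
    exact Submodule.fg_span_singleton 1
  have h6 := hb2 ((W + 1) * p) 1 h1fg (Submodule.one_le.2 hA.one_mem)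
  have h7 : Module.finrank k ↥(1 : Submodule k H) = 1 := by
    rw [Submodule.one_eq_span]
    have hnt : Nontrivial H := Bialgebra.nontrivial (R := k)
    exact finrank_span_singleton one_ne_zero
  rw [h7, mul_one, mul_one] at h6
  exact (h4.trans h5).trans h6

end hopf

end Pool.Agent.GKV
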