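import Pool.Agent.Lib_helper2.GKV.V4

/-!
# Orbits of subspaces
-/

set_option autoImplicit false

universe u v

namespace Pool.Agent.GKV

open TensorProduct Pool.Agent.GK Pool.Agent.GKP Pool.Agent.GKU Pool.Agent.GKC

section hopf
variable (k : Type u) [Field k] {H : Type v} [Ring H] [HopfAlgebra k H]

/-- the sum of the conjugates of `X` by the words of length `i` in `S` -/
noncomputable def ob (S : Finset (GroupLike k H)) (X : Submodule k H) : ℕ → Submodule k H
  | 0 => X
  | i + 1 => ⨆ s ∈ S, (ob S X i).map (cj k s)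

variable (S : Finset (GroupLike k H)) (X : Submodule k H)

theorem ob_fg (hX : X.FG) (i : ℕ) : (ob k S X i).FG := by
  induction i with
  | zero => exact hX
  | succ i ih => exact Submodule.fg_biSup S _ (fun s _ => ih.map _)

theorem ob_map (i : ℕ) {s : GroupLike k H} (hs : s ∈ S) :
    (ob k S X i).map (cj k s) ≤ ob k S X (i + 1) :=
  le_iSup₂_of_le (f := fun s (_ : s ∈ S) => (ob k S X i).map (cj k s)) s hs le_rfl

theorem ob_le_succ (h1 : (1 : GroupLike k H) ∈ S) (i : ℕ) : ob k S X i ≤ ob k S X (i + 1) := by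
  intro y hy
  have h2 := ob_map k S X i h1 (Submodule.mem_map_of_mem hy)
  rwa [cj_self] at h2

theorem ob_mono (h1 : (1 : GroupLike k H) ∈ S) : Monotone (ob k S X) :=
  monotone_nat_of_le_succ (ob_le_succ k S X h1)

variable {k S X}

theorem ob_le {F : Submodule k H} (hX : X ≤ F) (hF : GKC.Stb k (S : Set (GroupLike k H)) F) (i : ℕ) :
    ob k S X i ≤ F := by
  induction i with
  | zero => exact hX
  | succ i ih => exact iSup₂_le fun s hs => (Submodule.map_mono ih).trans (hF s hs)

theorem ob_sub (hX : IsSubcoalgebra k X) (i : ℕ) : IsSubcoalgebra k (ob k S X i) := by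
  induction i with
  | zero => exact hX
  | succ i ih => exact cs_iSup k fun s => cs_iSup k fun _ => cj_sub k s ih

theorem ob_ant (hX : ∀ x ∈ X, HopfAlgebra.antipode k x ∈ X) (i : ℕ) :
    ∀ x ∈ ob k S X i, HopfAlgebra.antipode k x ∈ ob k S X i := by
  induction i with
  | zero => exact hX
  | succ i ih =>
    have h1 : ob k S X (i + 1) ≤ (ob k S X (i + 1)).comap (HopfAlgebra.antipode k) := by
      conv_lhs => unfold ob
      refine iSup₂_le fun s hs => ?_
      rw [Submodule.map_le_iff_le_comap]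
      intro y hy
      rw [Submodule.mem_comap, Submodule.mem_comap, cj_antipode]
      exact ob_map k S X i hs (Submodule.mem_map_of_mem (ih y hy))
    exact fun x hx => h1 hx

theorem ob_nil {E : Submodule k H} (hE : ∀ s ∈ S, E.map (cj k s⁻¹) ≤ E) {n : ℕ} (hX : (br k E)^[n] X = ⊥) (i : ℕ) :
    (br k E)^[n] (ob k S X i) = ⊥ := by
  induction i with
  | zero => exact hX
  | succ i ih =>
    have h1 : (br k E)^[n] (ob k S X (i + 1)) = ⨆ s, ⨆ (_ : s ∈ S), (br k E)^[n] ((ob k S X i).map (cj k s)) := by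
      conv_lhs => unfold ob
      rw [iter_iSup]
      exact iSup_congr fun s => iter_iSup k E _ n
    rw [h1, eq_bot_iff]
    refine iSup₂_le fun s hs => (cj_br_iter k s (hE s hs) _ n).trans ?_
    rw [ih, Submodule.map_bot]

theorem ob_com {E P : Submodule k H} (hE : GKC.Stb k (S : Set (GroupLike k H)) E)
    (hP : GKC.Stb k (S : Set (GroupLike k H)) P)
    (hX : ∀ x ∈ X, Coalgebra.comul (R := k) x ∈ tsp k X E ⊔ tsp k E X ⊔ tsp k P P) (i : ℕ) :
    ∀ x ∈ ob k S X i, Coalgebra.comul (R := k) x ∈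
      tsp k (ob k S X i) E ⊔ tsp k E (ob k S X i) ⊔ tsp k P P := by
  induction i with
  | zero => exact hX
  | succ i ih =>
    have h1 : ob k S X (i + 1) ≤ (tsp k (ob k S X (i + 1)) E ⊔ tsp k E (ob k S X (i + 1)) ⊔ tsp k P P).comap
        (Coalgebra.comul (R := k)) := by
      conv_lhs => unfold ob
      refine iSup₂_le fun s hs => ?_
      rw [Submodule.map_le_iff_le_comap]
      intro y hy
      rw [Submodule.mem_comap, Submodule.mem_comap, cj_comul]
      obtain ⟨t, ht, t3, ht3, h5⟩ := Submodule.mem_sup.1 (ih y hy)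
      obtain ⟨t1, ht1, t2, ht2, h6⟩ := Submodule.mem_sup.1 ht
      rw [← h5, ← h6, map_add, map_add]
      exact Submodule.add_mem_sup (Submodule.add_mem_sup (cj_tsp k s (ob_map k S X i hs) (hE s hs) ht1)
        (cj_tsp k s (hE s hs) (ob_map k S X i hs) ht2)) (cj_tsp k s (hP s hs) (hP s hs) ht3)
    exact fun x hx => h1 hx

theorem ob_pow {V : Submodule k H} (hS : ∀ s ∈ S, s.val ∈ V ∧ (s⁻¹).val ∈ V) (hX : X ≤ V) (i : ℕ) :
    ob k S X i ≤ V ^ (2 * i + 1) := by
  induction i with
  | zero =>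
    rw [mul_zero, zero_add, pow_one]
    exact hX
  | succ i ih =>
    refine iSup₂_le fun s hs => ?_
    rw [Submodule.map_le_iff_le_comap]
    intro y hy
    rw [Submodule.mem_comap, cj_apply]
    have e : 2 * (i + 1) + 1 = 1 + ((2 * i + 1) + 1) := by ring
    rw [e, pow_add, pow_add, pow_one]
    exact Submodule.mul_mem_mul (hS s hs).1 (Submodule.mul_mem_mul (ih hy) (hS s hs).2)

theorem map_inv_le {E : Submodule k H} (hS : Sym k S) (hE : GKC.Stb k (S : Set (GroupLike k H)) E) :
    ∀ s ∈ S, E.map (cj k s⁻¹) ≤ E := fun s hs => hE s⁻¹ (hS.2 s hs)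

/-- one step: infinite dimension or the orbit is finite-dimensional modulo the chain -/
theorem step_stb (hA : IsHopfSubalgebra k (coradical k H)) (hS : Sym k S) {E : Submodule k H} (hE : Bas k E)
    {D : ℕ → Submodule k H} (h : Chn k E D) (hD : ∀ i, GKC.Stb k (S : Set (GroupLike k H)) (D i)) {r n : ℕ}
    (hn : (br k E)^[n] (D r) = ⊥) (hXf : X.FG) (hXs : IsSubcoalgebra k X)
    (hXc : ∀ x ∈ X, Coalgebra.comul (R := k) x ∈ tsp k X E ⊔ tsp k E X ⊔ tsp k (D r) (D r))
    (hnX : (br k E)^[n] X = ⊥) :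
    GKdim k H = ⊤ ∨ ∃ i, ob k S X (i + 1) ≤ D r ⊔ ob k S X i := by
  classical
  by_cases hst : ∃ i, ob k S X (i + 1) ≤ D r ⊔ ob k S X i
  · exact Or.inr hst
  left
  push Not at hst
  have hES : GKC.Stb k (S : Set (GroupLike k H)) E := h.zero ▸ hD 0
  have hCf : ∀ i, (D r ⊔ ob k S X i).FG := fun i => (h.fg r).sup (ob_fg k S X hXf i)
  have hCfin : ∀ i, Module.Finite k ↥(D r ⊔ ob k S X i) := fun i => Module.Finite.iff_fg.2 (hCf i)
  -- the dimensions
  have hdim : ∀ i, i ≤ Module.finrank k ↥(D r ⊔ ob k S X i) := by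
    intro i
    induction i with
    | zero => exact Nat.zero_le _
    | succ i ih =>
      have hlt : D r ⊔ ob k S X i < D r ⊔ ob k S X (i + 1) := by
        refine lt_of_le_of_ne (sup_le_sup le_rfl (ob_le_succ k S X hS.1 i)) fun heq => ?_
        exact hst i (heq ▸ le_sup_right)
      have := Submodule.finrank_lt_finrank_of_lt hlt
      omega
  set V : Submodule k H := D r ⊔ X ⊔ kS k (S : Set (GroupLike k H)) with hV
  have h1V : (1 : Submodule k H) ≤ V :=
    (one_le_kS k (Finset.mem_coe.2 hS.1)).trans le_sup_right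
  have hVf : V.FG := ((h.fg r).sup hXf).sup (kS_fg k S)
  have hSV : ∀ s ∈ S, s.val ∈ V ∧ (s⁻¹).val ∈ V := fun s hs =>
    ⟨Submodule.mem_sup_right (Submodule.subset_span ⟨s, hs, rfl⟩),
      Submodule.mem_sup_right (Submodule.subset_span ⟨s⁻¹, hS.2 s hs, rfl⟩)⟩
  have hCV : ∀ i, D r ⊔ ob k S X i ≤ V ^ (2 * i + 1) := by
    intro i
    refine sup_le ?_ (ob_pow hSV (le_sup_right.trans le_sup_left) i)
    have h2 : V ^ 1 ≤ V ^ (2 * i + 1) := pow_le_pow_right' h1V (by omega)
    rw [pow_one] at h2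
    exact (le_sup_left.trans le_sup_left).trans h2
  set e0 : ℕ := Module.finrank k E with he0
  set W : ℕ := (n + 1) * 3 ^ (r + 1 + 1) with hW
  rw [← top_le_iff]
  refine le_trans ?_ (le_GKdim k h1V hVf)
  rw [asm_L_top_pow k (V := V) (W := (2 * e0 + 3) * (2 * (n + 1) * (W + 2))) (q := W + 1)
    (Nat.mul_pos (by omega) (Nat.mul_pos (by omega) (by omega))) (by omega)]
  intro p hp
  set i : ℕ := p ^ W * e0 + 1 with hi
  set C : Submodule k H := D r ⊔ ob k S X i with hC
  have hCs : IsSubcoalgebra k C := cs_sup k (h.sub r) (ob_sub hXs i)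
  have hchC : Chn k E (GKV.ext D C r) := by
    refine h.ext (hCf i) hCs le_sup_left ?_
    have h1 : C ≤ (tsp k C E ⊔ tsp k E C ⊔ tsp k (D r) (D r)).comap (Coalgebra.comul (R := k)) := by
      refine sup_le ?_ ?_
      · intro x hx
        exact Submodule.mem_sup_right (h.sub r x hx)
      · intro x hx
        have h2 := ob_com hES (hD r) hXc i x hx
        have h3 : tsp k (ob k S X i) E ⊔ tsp k E (ob k S X i) ⊔ tsp k (D r) (D r) ≤
            tsp k C E ⊔ tsp k E C ⊔ tsp k (D r) (D r) :=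
          sup_le_sup (sup_le_sup (tsp_mono k le_sup_right le_rfl) (tsp_mono k le_rfl le_sup_right)) le_rfl
        exact h3 h2
    exact fun x hx => h1 hx
  have hnC : (br k E)^[n] (GKV.ext D C r (r + 1)) = ⊥ := by
    rw [ext_succ, hC, sup_eq_iSup, iter_iSup, iSup_eq_bot]
    intro b
    cases b
    · exact ob_nil (map_inv_le hS hES) hnX i
    · exact hn
  have hgr := chn_growth hA hE hchC (r + 1) n hnC p (by
    rw [ext_succ]
    have h1 : i ≤ Module.finrank k ↥C := hdim i
    show p ^ W * e0 < Module.finrank k ↥C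
    omega)
  rw [ext_succ] at hgr
  refine hgr.trans ?_
  have hfin : Module.Finite k ↥(V ^ ((2 * e0 + 3) * (2 * (n + 1) * (W + 2)) * p ^ (W + 1))) :=
    Module.Finite.iff_fg.2 (hVf.pow _)
  refine Submodule.finrank_mono ((pow_le_pow_left' (hCV i) _).trans ?_)
  rw [← pow_mul]
  refine pow_le_pow_right' h1V ?_
  have hpW : 1 ≤ p ^ W := Nat.one_le_pow _ _ hp
  calc (2 * i + 1) * (2 * (n + 1) * ((W + 1) * p + 1)) ≤
        ((2 * e0 + 3) * p ^ W) * (2 * (n + 1) * ((W + 2) * p)) := by
        refine Nat.mul_le_mul ?_ (Nat.mul_le_mul_left _ ?_)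
        · rw [hi]
          nlinarith
        · nlinarith
    _ = (2 * e0 + 3) * (2 * (n + 1) * (W + 2)) * p ^ (W + 1) := by ring

end hopf

end Pool.Agent.GKV
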