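import Pool.Agent.Lib_helper2.GKV.V5
import Pool.Agent.Lib_helper2.GKU.U10

/-!
# Stable subcoalgebras
-/

set_option autoImplicit false

universe u v

namespace Pool.Agent.GKV

open TensorProduct Pool.Agent.GK Pool.Agent.GKP Pool.Agent.GKU Pool.Agent.GKC

section hopf
variable (k : Type u) [Field k] {H : Type v} [Ring H] [HopfAlgebra k H]

/-- group-like elements lie in the coradical -/
theorem grp_mem_cor (g : GroupLike k H) : g.val ∈ coradical k H := by
  have hg' : IsGroupLikeElem k g.val := g.2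
  have h1 : IsSimpleSubcoalgebra k (Submodule.span k {g.val}) := by
    have hg0 : g.val ≠ 0 := by
      intro h0
      have := hg'.counit_eq_one
      rw [h0, map_zero] at this
      exact zero_ne_one this
    refine ⟨?_, ?_, ?_⟩
    · intro x hx
      obtain ⟨a, rfl⟩ := Submodule.mem_span_singleton.1 hx
      rw [map_smul, hg'.comul_eq_tmul_self]
      exact Submodule.smul_mem _ _ (tmul_mem_tsp k (Submodule.mem_span_singleton_self _)
        (Submodule.mem_span_singleton_self _))
    · rw [Ne, Submodule.span_singleton_eq_bot]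
      exact hg0
    · intro E _ hE
      by_cases h : E = ⊥
      · exact Or.inl h
      · right
        refine le_antisymm hE ?_
        obtain ⟨y, hy, hy0⟩ := (Submodule.ne_bot_iff E).1 h
        obtain ⟨a, rfl⟩ := Submodule.mem_span_singleton.1 (hE hy)
        have ha : a ≠ 0 := by
          rintro rfl
          exact hy0 (zero_smul _ _)
        rw [Submodule.span_singleton_le_iff_mem]
        have := E.smul_mem a⁻¹ hy
        rwa [smul_smul, inv_mul_cancel₀ ha, one_smul] at this
  exact (le_sSup h1 : _ ≤ coradical k H) (Submodule.mem_span_singleton_self g.val)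

theorem kS_le_cor (S : Set (GroupLike k H)) : kS k S ≤ coradical k H := by
  rw [kS, Submodule.span_le]
  rintro _ ⟨g, -, rfl⟩
  exact grp_mem_cor k g

theorem kS_sub (S : Set (GroupLike k H)) : IsSubcoalgebra k (kS k S) := by
  intro x hx
  have h1 : kS k S ≤ (tsp k (kS k S) (kS k S)).comap (Coalgebra.comul (R := k)) := by
    conv_lhs => rw [kS]
    rw [Submodule.span_le]
    rintro _ ⟨g, hg, rfl⟩
    rw [SetLike.mem_coe, Submodule.mem_comap, g.2.comul_eq_tmul_self]
    exact tmul_mem_tsp k (Submodule.subset_span ⟨g, hg, rfl⟩) (Submodule.subset_span ⟨g, hg, rfl⟩)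
  exact h1 hx

variable {k}

theorem cj_cor (hA : IsHopfSubalgebra k (coradical k H)) (S : Set (GroupLike k H)) :
    GKC.Stb k S (coradical k H) := by
  intro g _
  rw [Submodule.map_le_iff_le_comap]
  intro x hx
  rw [Submodule.mem_comap, cj_apply]
  exact hA.mul_mem _ (grp_mem_cor k g) _ (hA.mul_mem _ hx _ (grp_mem_cor k g⁻¹))

theorem fg_of_le' {C D : Submodule k H} (hD : D.FG) (h : C ≤ D) : C.FG := by
  have : Module.Finite k D := Module.Finite.iff_fg.2 hD
  have := Submodule.finiteDimensional_of_le h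
  exact Module.Finite.iff_fg.1 this

/-- the base -/
theorem base_exists (hA : IsHopfSubalgebra k (coradical k H)) {U : Submodule k H} (hU : IsHopfSubalgebra k U)
    (hcomm : ∀ a ∈ U ⊓ coradical k H, ∀ b ∈ U ⊓ coradical k H, a * b = b * a)
    {S : Finset (GroupLike k H)} (hS : Sym k S) (hSU : GKC.Stb k (S : Set (GroupLike k H)) U)
    (h5 : ∀ a ∈ U ⊓ coradical k H, ∃ F : Submodule k H, F.FG ∧ GKC.Stb k (S : Set (GroupLike k H)) F ∧ a ∈ F)
    {V : Submodule k H} (hV : V.FG) (hVU : V ≤ U ⊓ coradical k H) :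
    ∃ E : Submodule k H, Bas k E ∧ GKC.Stb k (S : Set (GroupLike k H)) E ∧ E ≤ U ∧ V ≤ E := by
  classical
  obtain ⟨E1, hE1f, hE1s, hVE1, h1E1, hE1A, hE1S⟩ := lar_main k hA hV (hVU.trans inf_le_right)
  set E2 : Submodule k H := E1 ⊓ U with hE2
  have hE2f : E2.FG := fg_of_le' hE1f inf_le_left
  have hE2U : E2 ≤ U ⊓ coradical k H := le_inf inf_le_right (inf_le_left.trans hE1A)
  -- a stable finite-dimensional space which contains `E2`
  obtain ⟨F, hFf, hFS, hF⟩ : ∃ F : Submodule k H, F.FG ∧ GKC.Stb k (S : Set (GroupLike k H)) F ∧ E2 ≤ F := by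
    obtain ⟨T, hT⟩ := hE2f
    have h5' : ∀ a : H, ∃ F : Submodule k H, F.FG ∧ GKC.Stb k (S : Set (GroupLike k H)) F ∧ (a ∈ T → a ∈ F) := by
      intro a
      by_cases ha : a ∈ T
      · have ha2 : a ∈ E2 := by rw [← hT]; exact Submodule.subset_span ha
        obtain ⟨F, h1, h2, h3⟩ := h5 a (hE2U ha2)
        exact ⟨F, h1, h2, fun _ => h3⟩
      · refine ⟨⊥, Submodule.fg_bot, ?_, fun h => absurd h ha⟩
        intro s _
        rw [Submodule.map_bot]
    choose F hF1 hF2 hF3 using h5'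
    refine ⟨⨆ a ∈ T, F a, Submodule.fg_biSup T F (fun a _ => hF1 a), ?_, ?_⟩
    · intro s hs
      rw [Submodule.map_le_iff_le_comap]
      refine iSup₂_le fun a ha => ?_
      rw [← Submodule.map_le_iff_le_comap]
      exact (hF2 a s hs).trans (le_iSup₂_of_le (f := fun a (_ : a ∈ T) => F a) a ha le_rfl)
    · rw [← hT, Submodule.span_le]
      intro a ha
      exact (le_iSup₂_of_le (f := fun a (_ : a ∈ T) => F a) a ha le_rfl) (hF3 a ha)
  have hFfin : Module.Finite k ↥F := Module.Finite.iff_fg.2 hFf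
  -- the orbit is stationary
  obtain ⟨i, hi⟩ : ∃ i, ob k S E2 (i + 1) ≤ ob k S E2 i := by
    by_contra hcon
    push Not at hcon
    have hdim : ∀ i, i ≤ Module.finrank k ↥(ob k S E2 i) := by
      intro i
      induction i with
      | zero => exact Nat.zero_le _
      | succ i ih =>
        have hlt : ob k S E2 i < ob k S E2 (i + 1) :=
          lt_of_le_of_ne (ob_le_succ k S E2 hS.1 i) fun heq => hcon i heq.ge
        have : Module.Finite k ↥(ob k S E2 (i + 1)) := Module.Finite.iff_fg.2 (ob_fg k S E2 hE2f _)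
        have := Submodule.finrank_lt_finrank_of_lt hlt
        omega
    have h1 := hdim (Module.finrank k ↥F + 1)
    have h2 := Submodule.finrank_mono (ob_le hF hFS (Module.finrank k ↥F + 1))
    omega
  have hle : ob k S E2 i ≤ U ⊓ coradical k H :=
    le_inf (ob_le (hE2U.trans inf_le_left) hSU i) (ob_le (hE2U.trans inf_le_right) (cj_cor hA _) i)
  refine ⟨ob k S E2 i, ⟨ob_fg k S E2 hE2f i, ob_sub (cs_inf k hE1s hU.sub) i, ?_, hle.trans inf_le_right,
    ob_ant (X := E2) (fun x hx => ⟨hE1S x hx.1, hU.antipode_mem x hx.2⟩) i,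
    fun a ha b hb => hcomm a (hle ha) b (hle hb)⟩, ?_, hle.trans inf_le_left, ?_⟩
  · exact ob_mono k S E2 hS.1 (Nat.zero_le i) ⟨h1E1, hU.one_mem⟩
  · intro s hs
    exact (ob_map k S E2 i hs).trans hi
  · exact (le_inf hVE1 (hVU.trans inf_le_left)).trans (ob_mono k S E2 hS.1 (Nat.zero_le i))

/-- finite dimension: every finite-dimensional subspace of `U` lies in a stable subcoalgebra -/
theorem stable_exists (hA : IsHopfSubalgebra k (coradical k H)) {U : Submodule k H} (hU : IsHopfSubalgebra k U)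
    (hcomm : ∀ a ∈ U ⊓ coradical k H, ∀ b ∈ U ⊓ coradical k H, a * b = b * a)
    (hnil : ∀ a ∈ U ⊓ coradical k H, ∀ x ∈ U, ∃ n : ℕ, ((cm k a)^[n]) x = 0)
    {S : Finset (GroupLike k H)} (hS : Sym k S) (hSU : GKC.Stb k (S : Set (GroupLike k H)) U)
    (h5 : ∀ a ∈ U ⊓ coradical k H, ∃ F : Submodule k H, F.FG ∧ GKC.Stb k (S : Set (GroupLike k H)) F ∧ a ∈ F)
    (htop : GKdim k H ≠ ⊤) {V : Submodule k H} (hV : V.FG) (hVU : V ≤ U) :
    ∃ C : Submodule k H, Pre k C ∧ GKC.Stb k (S : Set (GroupLike k H)) C ∧ C ≤ U ∧ V ≤ C := by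
  classical
  obtain ⟨C1, hVC1, h1C1, hC1f, hC1s⟩ := cs_fund k hV
  set C0 : Submodule k H := C1 ⊓ U with hC0
  have hC0f : C0.FG := fg_of_le' hC1f inf_le_left
  have hC0U : C0 ≤ U := inf_le_right
  obtain ⟨r, D, hD0, hDr, hmono, hDC, hDsub, hDc⟩ := chain_of k (coradical k H) C0 (GKP.coradical_sub k) le_rfl hC0f
    (cs_inf k hC1s hU.sub)
  obtain ⟨E, hE, hES, hEU, hD0E⟩ := base_exists hA hU hcomm hS hSU h5 (V := D 0)
    (fg_of_le' hC0f (hDC 0)) (by rw [hD0]; exact inf_le_inf hC0U le_rfl)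
  have hDf : ∀ i, (D i).FG := fun i => fg_of_le' hC0f (hDC i)
  have key : ∀ i : ℕ, ∃ D' : ℕ → Submodule k H, Chn k E D' ∧
      (∀ j, GKC.Stb k (S : Set (GroupLike k H)) (D' j)) ∧ (∀ j, D' j ≤ U) ∧ D i ≤ D' i := by
    intro i
    induction i with
    | zero => exact ⟨fun _ => E, Chn.const hE.fg hE.sub, fun _ => hES, fun _ => hEU, hD0E⟩
    | succ i ih =>
      obtain ⟨D', hch, hst, hle, hi⟩ := ih
      obtain ⟨n1, hn1⟩ := exists_iter_U k hU.mul_le inf_le_left hcomm hnil hE.fg (le_inf hEU hE.cor) (hch.fg i) (hle i)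
      obtain ⟨n2, hn2⟩ := exists_iter_U k hU.mul_le inf_le_left hcomm hnil hE.fg (le_inf hEU hE.cor) (hDf (i + 1))
        ((hDC (i + 1)).trans hC0U)
      have hXc : ∀ x ∈ D (i + 1), Coalgebra.comul (R := k) x ∈
          tsp k (D (i + 1)) E ⊔ tsp k E (D (i + 1)) ⊔ tsp k (D' i) (D' i) := by
        intro x hx
        have h3 : tsp k (D (i + 1)) (D 0) ⊔ tsp k (D 0) (D (i + 1)) ⊔ tsp k (D i) (D i) ≤
            tsp k (D (i + 1)) E ⊔ tsp k E (D (i + 1)) ⊔ tsp k (D' i) (D' i) :=
          sup_le_sup (sup_le_sup (tsp_mono k le_rfl hD0E) (tsp_mono k hD0E le_rfl)) (tsp_mono k hi hi)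
        exact h3 (hDc i x hx)
      rcases step_stb (X := D (i + 1)) (n := max n1 n2) hA hS hE hch hst
          (iter_bot_of_le k (le_max_left n1 n2) hn1) (hDf (i + 1)) (hDsub (i + 1)) hXc
          (iter_bot_of_le k (le_max_right n1 n2) hn2) with h | ⟨j, hj⟩
      · exact absurd h htop
      set C : Submodule k H := D' i ⊔ ob k S (D (i + 1)) j with hC
      have hCs : IsSubcoalgebra k C := cs_sup k (hch.sub i) (ob_sub (hDsub (i + 1)) j)
      refine ⟨GKV.ext D' C i, hch.ext ((hch.fg i).sup (ob_fg k S _ (hDf (i + 1)) j)) hCs le_sup_left ?_,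
        ext_cases (fun X => GKC.Stb k (S : Set (GroupLike k H)) X) hst ?_, ext_cases (fun X => X ≤ U) hle ?_, ?_⟩
      · have h1 : C ≤ (tsp k C E ⊔ tsp k E C ⊔ tsp k (D' i) (D' i)).comap (Coalgebra.comul (R := k)) := by
          refine sup_le ?_ ?_
          · intro x hx
            exact Submodule.mem_sup_right (hch.sub i x hx)
          · intro x hx
            have h2 := ob_com hES (hst i) hXc j x hx
            have h3 : tsp k (ob k S (D (i + 1)) j) E ⊔ tsp k E (ob k S (D (i + 1)) j) ⊔ tsp k (D' i) (D' i) ≤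
                tsp k C E ⊔ tsp k E C ⊔ tsp k (D' i) (D' i) :=
              sup_le_sup (sup_le_sup (tsp_mono k le_sup_right le_rfl) (tsp_mono k le_rfl le_sup_right)) le_rfl
            exact h3 h2
        exact fun x hx => h1 hx
      · intro s hs
        rw [hC, Submodule.map_sup]
        exact sup_le ((hst i s hs).trans le_sup_left) ((ob_map k S _ j hs).trans hj)
      · exact sup_le (hle i) (ob_le ((hDC (i + 1)).trans hC0U) hSU j)
      · rw [ext_succ]
        exact (ob_mono k S _ hS.1 (Nat.zero_le j)).trans le_sup_right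
  obtain ⟨D', hch, hst, hle, hr⟩ := key r
  refine ⟨D' r, chn_pre hE hch r, hst r, hle r, ?_⟩
  refine le_trans ?_ hr
  rw [hDr]
  exact le_inf hVC1 hVU

end hopf

end Pool.Agent.GKV
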