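import Pool.Agent.Lib_helper2.GKV.V7

/-!
# The GK dimension of a product of a Hopf subalgebra and a group of group-likes
-/

set_option autoImplicit false

universe u v

namespace Pool.Agent.GKV

open TensorProduct Pool.Agent.GK Pool.Agent.GKP Pool.Agent.GKF Pool.Agent.GKC Pool.Agent.GKU

section final
variable (k : Type u) [Field k] {H : Type v} [Ring H] [HopfAlgebra k H]

theorem asm_le_sub {V U : Submodule k H} (h1 : (1 : H) ∈ V) (hV : V.FG) (hVU : V ≤ U) : asm_L k V ≤ GKsub k U :=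
  le_iSup₂_of_le (f := fun (V : Submodule k H) (_ : (1 ≤ V ∧ V.FG) ∧ V ≤ U) => asm_L k V) V
    ⟨⟨Submodule.one_le.2 h1, hV⟩, hVU⟩ le_rfl

/-- the second bound of `count_bounds` with the first one for subcoalgebras `X` of `C ^ n * A` -/
theorem count_upper (hA : IsHopfSubalgebra k (coradical k H)) {C : Submodule k H} (hC : Pre k C)
    {m : ℕ} {x : Fin m → H} {w : Fin m → ℤ}
    (h : LetHyp k (Kc k (C ⊓ coradical k H)) x w) {c W : ℕ} (hx : ∀ j, x j ∈ C ^ c)
    (hCW : C ≤ Em k (Kc k (C ⊓ coradical k H)) x w W)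
    {B : Type u} [Ring B] [Algebra k B] (q : FreeAlgebra k (Fin m) →ₐ[k] B)
    (hq : ∀ f, q f = 0 ↔ Null k (Nm k (Kc k (C ⊓ coradical k H)) x w) x w f) (n : ℕ) {X : Submodule k H}
    (hX : X.FG) (hXs : IsSubcoalgebra k X) (hXC : X ≤ C ^ n * coradical k H) :
    Module.finrank k ↥X ≤
      Module.finrank k ↥(Es k (fun j => q (FreeAlgebra.ι k j)) w ((W * n : ℕ) : ℤ)) *
        Module.finrank k ↥(X ⊓ coradical k H) := by
  have hc := ctx_of_pre k hA hC
  obtain ⟨r, e, hr, hF, heC, hcov⟩ := total_fam k hA hC h hx q hq (W * n + 1)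
  have hs : ((W * n + 1 : ℕ) : ℤ) - 1 = ((W * n : ℕ) : ℤ) := by push_cast; ring
  rw [hs] at hr hcov
  obtain ⟨hFA, _⟩ := fam_co k hc hF (fun i => (kc_facts k hC.one).2.2.2.1 _ (heC i)) bot_le (by
    rw [Submodule.bot_mul]; exact inf_le_right)
  rw [Submodule.bot_mul] at hFA
  have hCn := pow_le_Em k h hCW n
  have hXe : X ≤ Submodule.span k (Set.range e) * coradical k H := by
    refine hXC.trans ((mul_le_mul' hCn le_rfl).trans ?_)
    rw [hcov, bot_sup_eq, mul_assoc]
    exact mul_le_mul' le_rfl ((mul_le_mul' hc.KA le_rfl).trans hA.mul_le)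
  have h2 := fam_upper k hA hFA hX hXs hXe
  rwa [Fintype.card_fin, hr] at h2

/-- one subcoalgebra -/
theorem one_preS (hA : IsHopfSubalgebra k (coradical k H)) {C : Submodule k H} (hC : Pre k C)
    (hcomm : ∀ a ∈ C ⊓ coradical k H, ∀ b ∈ C ⊓ coradical k H, a * b = b * a) (n : ℕ)
    (hn : (br k (C ⊓ coradical k H))^[n] C = ⊥) {U : Submodule k H} (hU : IsHopfSubalgebra k U) (hCU : C ≤ U) :
    GKdim k H = ⊤ ∨ ∃ r : ℕ, GKsub k (coradical k H) + r ≤ GKdim k H ∧
      GKsub k (U ⊓ coradical k H) + r ≤ GKsub k U ∧ asm_L k C ≤ GKsub k (U ⊓ coradical k H) + r ∧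
      ∀ S : Finset (GroupLike k H), Sym k S → GKC.Stb k (S : Set (GroupLike k H)) C →
        asm_L k (C * kS k (S : Set (GroupLike k H))) ≤ GKsub k (coradical k H) + r := by
  have hc := ctx_of_pre k hA hC
  obtain ⟨r, M, Y, hL⟩ := exists_lev k (coradical k H) C hA.sub le_rfl hC.fg hC.sub hC.one hA.one_mem hcomm n hn
  obtain ⟨m, x, w, W, h, hwW, hx, hCW⟩ := letters_of_lev k hL hc.hK.one_mem hc.hK.mul_le hc.hK.sub
  obtain ⟨B, _, _, q, _, hqc, hq⟩ := exists_quot k (isFW_mod k h)
  obtain ⟨hb1, hb2⟩ := count_bounds k hA hC h hx hCW q hq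
  set cB : Fin m → B := fun j => q (FreeAlgebra.ι k j) with hcB
  set R : ℕ → ℕ := fun s => Module.finrank k ↥(Es k cB w (s : ℤ)) with hR
  have hfinB : ∀ n, Module.Finite k ↥(Dg k cB ^ n) := fun n => Module.Finite.iff_fg.2 ((Dg_fg k cB).pow n)
  have hfinE : ∀ s, Module.Finite k ↥(Es k cB w s) := fun s => Module.Finite.iff_fg.2 (Es_fg' k cB h.w1 s)
  have hRle : ∀ s : ℕ, R s ≤ Module.finrank k ↥(Dg k cB ^ s) := fun s =>
    Submodule.finrank_mono (Es_le_Dg k cB h.w1 s)
  have hRge : ∀ n : ℕ, Module.finrank k ↥(Dg k cB ^ n) ≤ R ((W + 1) * n) := fun n => by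
    refine Submodule.finrank_mono ((pow_le_Es k cB w hwW n).trans (Es_mono k cB w ?_))
    push_cast
    nlinarith [Int.natCast_nonneg n]
  have hRmono : Monotone R := fun a b hab =>
    Submodule.finrank_mono (Es_mono k cB w (by exact_mod_cast hab))
  have hEf : (C ⊓ coradical k H).FG := Submodule.FG.of_le hC.fg inf_le_left
  rcases growth_prim k cB hqc with ⟨V, hV, hexp⟩ | ⟨d, a, b, ha, hpoly⟩
  · left
    set c' : ℕ := 2 * (n + 1) * ((W + 1) * V + 1) with hc'
    have h1 : asm_L k C = ⊤ := by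
      refine asm_L_top k (W := c') (Nat.mul_pos (by omega) (Nat.succ_pos _)) fun t ht => ?_
      have h1fg : (1 : Submodule k H).FG := by
        rw [Submodule.one_eq_span]
        exact Submodule.fg_span_singleton 1
      have h2 := hb2 ((W + 1) * (V * t ^ 2)) 1 h1fg (Submodule.one_le.2 hA.one_mem)
      have h3 : Module.finrank k ↥(1 : Submodule k H) = 1 := by
        rw [Submodule.one_eq_span]
        have hnt : Nontrivial H := Bialgebra.nontrivial (R := k)
        exact finrank_span_singleton one_ne_zero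
      rw [h3, mul_one, mul_one] at h2
      refine ((hexp t ht).trans (hRge _)).trans (h2.trans ?_)
      have : Module.Finite k ↥(C ^ (c' * t ^ 2)) := Module.Finite.iff_fg.2 (hC.fg.pow _)
      refine Submodule.finrank_mono (pow_le_pow_right' (Submodule.one_le.2 hC.one) ?_)
      rw [hc']
      have h4 : 1 ≤ t ^ 2 := Nat.one_le_pow _ _ ht
      calc 2 * (n + 1) * ((W + 1) * (V * t ^ 2) + 1) ≤ 2 * (n + 1) * ((W + 1) * (V * t ^ 2) + t ^ 2) :=
            Nat.mul_le_mul_left _ (Nat.add_le_add_left h4 _)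
        _ = 2 * (n + 1) * ((W + 1) * V + 1) * t ^ 2 := by ring
    rw [eq_top_iff, ← h1]
    exact le_GKdim k (Submodule.one_le.2 hC.one) hC.fg
  · right
    -- polynomial lower bound of the rank
    obtain ⟨t, ht1, ht⟩ : ∃ t : ℕ, 1 ≤ t ∧ ∀ n : ℕ, 1 ≤ n → n ^ d ≤ R ((W + 1) * (t * n)) := by
      obtain ⟨t0, ht0⟩ := exists_nat_ge (1 / a)
      refine ⟨t0 + 1, Nat.succ_pos _, fun n hn => ?_⟩
      have h1 := (hpoly ((t0 + 1) * n) (Nat.mul_pos (Nat.succ_pos _) hn)).1
      have h2 : (Module.finrank k ↥(Dg k cB ^ ((t0 + 1) * n)) : ℝ) ≤ (R ((W + 1) * ((t0 + 1) * n)) : ℝ) := by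
        exact_mod_cast hRge _
      rcases Nat.eq_zero_or_pos d with hd | hd
      · subst hd
        have h3 : 0 < R ((W + 1) * ((t0 + 1) * n)) := by
          rw [pow_zero, mul_one] at h1
          have : (0 : ℝ) < (R ((W + 1) * ((t0 + 1) * n)) : ℝ) := lt_of_lt_of_le ha (h1.trans h2)
          exact_mod_cast this
        rw [pow_zero]
        exact h3
      · have h3 : (1 : ℝ) ≤ a * ((t0 : ℝ) + 1) := by
          have h4 : 1 / a ≤ (t0 : ℝ) + 1 := by linarith
          rw [div_le_iff₀ ha] at h4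
          linarith
        have h4 : (1 : ℝ) ≤ a * ((t0 : ℝ) + 1) ^ d := by
          have h5 : ((t0 : ℝ) + 1) ≤ ((t0 : ℝ) + 1) ^ d := by
            refine le_self_pow₀ ?_ (by omega)
            have : (0 : ℝ) ≤ t0 := Nat.cast_nonneg _
            linarith
          nlinarith
        have h5 : (n : ℝ) ^ d ≤ a * (((t0 + 1) * n : ℕ) : ℝ) ^ d := by
          push_cast
          rw [mul_pow, ← mul_assoc]
          have h6 : (0 : ℝ) ≤ (n : ℝ) ^ d := by positivity
          nlinarith
        have h6 : (n : ℝ) ^ d ≤ (R ((W + 1) * ((t0 + 1) * n)) : ℝ) := h5.trans (h1.trans h2)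
        exact_mod_cast h6
    have hlow : ∀ (N : ℕ) (D : Submodule k H), D.FG → D ≤ coradical k H → N ^ d * Module.finrank k D ≤
        Module.finrank k ↥(C ^ (2 * (n + 1) * ((W + 1) * t + 1) * (N + 1)) * D) := by
      intro N D hD hDA
      have h1 : N ^ d ≤ R ((W + 1) * (t * (N + 1))) :=
        (Nat.pow_le_pow_left (Nat.le_succ N) d).trans (ht (N + 1) (Nat.succ_pos N))
      have h2 := hb2 ((W + 1) * (t * (N + 1))) D hD hDA
      have : Module.Finite k ↥(C ^ (2 * (n + 1) * ((W + 1) * t + 1) * (N + 1)) * D) :=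
        Module.Finite.iff_fg.2 ((hC.fg.pow _).mul hD)
      calc N ^ d * Module.finrank k D ≤ R ((W + 1) * (t * (N + 1))) * Module.finrank k D :=
            Nat.mul_le_mul_right _ h1
        _ ≤ _ := h2
        _ ≤ _ := by
            refine Submodule.finrank_mono (mul_le_mul' (pow_le_pow_right' (Submodule.one_le.2 hC.one) ?_) le_rfl)
            calc 2 * (n + 1) * ((W + 1) * (t * (N + 1)) + 1) ≤
                  2 * (n + 1) * ((W + 1) * (t * (N + 1)) + (N + 1)) :=
                  Nat.mul_le_mul_left _ (Nat.add_le_add_left (Nat.succ_pos N) _)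
              _ = 2 * (n + 1) * ((W + 1) * t + 1) * (N + 1) := by ring
    obtain ⟨c0, hc0⟩ := exists_nat_ge (b * ((W : ℝ) + 1) ^ d)
    have hRup : ∀ N : ℕ, R (W * N) ≤ (c0 + 1) * (N + 1) ^ d := by
      intro N
      have h1 : R (W * N) ≤ R ((W + 1) * (N + 1)) := hRmono (by nlinarith)
      refine h1.trans ?_
      have h2 := (hpoly ((W + 1) * (N + 1)) (Nat.mul_pos (Nat.succ_pos _) (Nat.succ_pos _))).2
      have h3 : (R ((W + 1) * (N + 1)) : ℝ) ≤ (Module.finrank k ↥(Dg k cB ^ ((W + 1) * (N + 1))) : ℝ) := by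
        exact_mod_cast hRle _
      have h4 : (R ((W + 1) * (N + 1)) : ℝ) ≤ (((c0 + 1) * (N + 1) ^ d : ℕ) : ℝ) := by
        refine (h3.trans h2).trans ?_
        push_cast
        rw [mul_pow, ← mul_assoc]
        refine mul_le_mul_of_nonneg_right ?_ (by positivity)
        linarith
      exact_mod_cast h4
    refine ⟨d, ?_, ?_, ?_, ?_⟩
    · exact gw_lower k (A := coradical k H) (V := C) hA.one_mem hA.mul_le hC.fg hC.one
        (2 * (n + 1) * ((W + 1) * t + 1)) d fun N D hD _ hDA => hlow N D hD hDA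
    · refine gw_lower_U k (A := U ⊓ coradical k H) (V := C) (U := U) ⟨hU.one_mem, hA.one_mem⟩ ?_ hC.fg hC.one
        inf_le_left hCU (2 * (n + 1) * ((W + 1) * t + 1)) d fun N D hD _ hDA => hlow N D hD (hDA.trans inf_le_right)
      exact le_inf ((mul_le_mul' inf_le_left inf_le_left).trans hU.mul_le)
        ((mul_le_mul' inf_le_right inf_le_right).trans hA.mul_le)
    · refine gw_upper k (A := U ⊓ coradical k H) hC.fg hC.one hEf ⟨hC.one, hA.one_mem⟩
        (inf_le_inf hCU le_rfl) (c0 + 1) d fun N => ?_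
      exact (hb1 N).trans (Nat.mul_le_mul_right _ (hRup N))
    · intro S hS hCS
      have hkf := kS_fg k S
      have h1k : (1 : H) ∈ kS k (S : Set (GroupLike k H)) := Submodule.one_le.1 (one_le_kS k (Finset.mem_coe.2 hS.1))
      have hXf : (C * kS k (S : Set (GroupLike k H))).FG := hC.fg.mul hkf
      have hXs : IsSubcoalgebra k (C * kS k (S : Set (GroupLike k H))) :=
        (sub_iff k).2 ⟨LS_mul k (LS_of_sub k hC.sub) (LS_of_sub k (kS_sub k _)),
          RS_mul k (RS_of_sub k hC.sub) (RS_of_sub k (kS_sub k _))⟩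
      have h1X : (1 : H) ∈ C * kS k (S : Set (GroupLike k H)) := by
        have := Submodule.mul_mem_mul hC.one h1k
        rwa [mul_one] at this
      refine gw_upper k (A := coradical k H) hXf h1X
        (E := (C * kS k (S : Set (GroupLike k H))) ⊓ coradical k H) (fg_of_le' hXf inf_le_left)
        ⟨h1X, hA.one_mem⟩ inf_le_right (c0 + 1) d fun N => ?_
      have hpow : (C * kS k (S : Set (GroupLike k H))) ^ N ≤ C ^ N * coradical k H := by
        rw [(commute_kS k hS hCS).mul_pow]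
        refine mul_le_mul' le_rfl ?_
        have : ∀ N : ℕ, kS k (S : Set (GroupLike k H)) ^ N ≤ coradical k H := by
          intro N
          induction N with
          | zero => rw [pow_zero]; exact Submodule.one_le.2 hA.one_mem
          | succ N ih => rw [pow_succ]; exact (mul_le_mul' ih (kS_le_cor k _)).trans hA.mul_le
        exact this N
      have h2 := count_upper k hA hC h hx hCW q hq N (hXf.pow N) (GKC.sub_pow hXs N) hpow
      refine h2.trans ((Nat.mul_le_mul_right _ (hRup N)).trans (Nat.mul_le_mul_left _ ?_))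
      have : Module.Finite k ↥(((C * kS k (S : Set (GroupLike k H))) ⊓ coradical k H) ^ N) :=
        Module.Finite.iff_fg.2 ((fg_of_le' hXf inf_le_left).pow N)
      exact Submodule.finrank_mono (nd_pow k hXf hXs N)

end final

end Pool.Agent.GKV
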