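import Pool.Agent.Lib_helper2.GKV.V8

/-!
# The main theorem
-/

set_option autoImplicit false

universe u v

namespace Pool.Agent.GKV

open TensorProduct Pool.Agent.GK Pool.Agent.GKP Pool.Agent.GKC Pool.Agent.GKU

section final
variable (k : Type u) [Field k] {H : Type v} [Ring H] [HopfAlgebra k H]

theorem cover_one {U : Submodule k H} {Γ : Set (GroupLike k H)} {x : H} (hx : x ∈ U * kS k Γ) :
    ∃ (D : Submodule k H) (S : Finset (GroupLike k H)), D.FG ∧ D ≤ U ∧ (S : Set (GroupLike k H)) ⊆ Γ ∧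
      x ∈ D * kS k (S : Set (GroupLike k H)) := by
  classical
  induction hx using Submodule.mul_induction_on' with
  | mem_mul_mem u hu b hb =>
    obtain ⟨S, hS, hb'⟩ : ∃ S : Finset (GroupLike k H), (S : Set (GroupLike k H)) ⊆ Γ ∧
        b ∈ kS k (S : Set (GroupLike k H)) := by
      unfold kS at hb
      induction hb using Submodule.span_induction with
      | mem y hy =>
        obtain ⟨g, hg, rfl⟩ := hy
        exact ⟨{g}, by simpa using hg, Submodule.subset_span ⟨g, by simp, rfl⟩⟩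
      | zero => exact ⟨∅, by simp, Submodule.zero_mem _⟩
      | add y z _ _ hy hz =>
        obtain ⟨S, hS, hy⟩ := hy
        obtain ⟨T, hT, hz⟩ := hz
        refine ⟨S ∪ T, by rw [Finset.coe_union]; exact Set.union_subset hS hT, Submodule.add_mem _ ?_ ?_⟩
        · exact kS_mono k (by rw [Finset.coe_union]; exact Set.subset_union_left) hy
        · exact kS_mono k (by rw [Finset.coe_union]; exact Set.subset_union_right) hz
      | smul a y _ hy =>
        obtain ⟨S, hS, hy⟩ := hy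
        exact ⟨S, hS, Submodule.smul_mem _ _ hy⟩
    exact ⟨Submodule.span k {u}, S, Submodule.fg_span_singleton u, (Submodule.span_singleton_le_iff_mem _ _).2 hu,
      hS, Submodule.mul_mem_mul (Submodule.mem_span_singleton_self u) hb'⟩
  | add y _ z _ hy hz =>
    obtain ⟨D, S, hD, hDU, hS, hy⟩ := hy
    obtain ⟨E, T, hE, hEU, hT, hz⟩ := hz
    refine ⟨D ⊔ E, S ∪ T, hD.sup hE, sup_le hDU hEU, by rw [Finset.coe_union]; exact Set.union_subset hS hT,
      Submodule.add_mem _ ?_ ?_⟩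
    · exact (mul_le_mul' le_sup_left (kS_mono k (by rw [Finset.coe_union]; exact Set.subset_union_left))) hy
    · exact (mul_le_mul' le_sup_right (kS_mono k (by rw [Finset.coe_union]; exact Set.subset_union_right))) hz

theorem cover {U : Submodule k H} {Γ : Set (GroupLike k H)} {V : Submodule k H} (hV : V.FG) (hVU : V ≤ U * kS k Γ) :
    ∃ (D : Submodule k H) (S : Finset (GroupLike k H)), D.FG ∧ D ≤ U ∧ (S : Set (GroupLike k H)) ⊆ Γ ∧
      V ≤ D * kS k (S : Set (GroupLike k H)) := by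
  classical
  obtain ⟨t, rfl⟩ := hV
  induction t using Finset.induction_on with
  | empty => exact ⟨⊥, ∅, Submodule.fg_bot, bot_le, by simp, by simp⟩
  | insert x t hx ih =>
    rw [Finset.coe_insert, Submodule.span_insert, sup_le_iff, Submodule.span_singleton_le_iff_mem] at hVU
    obtain ⟨D, S, hD, hDU, hS, h1⟩ := ih hVU.2
    obtain ⟨E, T, hE, hEU, hT, h2⟩ := cover_one k hVU.1
    refine ⟨D ⊔ E, S ∪ T, hD.sup hE, sup_le hDU hEU, by rw [Finset.coe_union]; exact Set.union_subset hS hT, ?_⟩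
    rw [Finset.coe_insert, Submodule.span_insert, sup_le_iff, Submodule.span_singleton_le_iff_mem]
    constructor
    · exact (mul_le_mul' le_sup_right (kS_mono k (by rw [Finset.coe_union]; exact Set.subset_union_right))) h2
    · exact h1.trans (mul_le_mul' le_sup_left (kS_mono k (by rw [Finset.coe_union]; exact Set.subset_union_left)))

theorem exists_sym_in {Γ : Subgroup (GroupLike k H)} (S : Finset (GroupLike k H))
    (hS : (S : Set (GroupLike k H)) ⊆ Γ) : ∃ T : Finset (GroupLike k H), Sym k T ∧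
    (S : Set (GroupLike k H)) ⊆ T ∧ (T : Set (GroupLike k H)) ⊆ Γ := by
  classical
  refine ⟨insert 1 (S ∪ S.image fun s => s⁻¹), ⟨Finset.mem_insert_self _ _, ?_⟩, ?_, ?_⟩
  · intro s hs
    rw [Finset.mem_insert, Finset.mem_union, Finset.mem_image] at hs ⊢
    rcases hs with rfl | hs | ⟨t, ht, rfl⟩
    · exact Or.inl inv_one
    · exact Or.inr (Or.inr ⟨s, hs, rfl⟩)
    · rw [inv_inv]
      exact Or.inr (Or.inl ht)
  · intro s hs
    exact Finset.mem_coe.2 (Finset.mem_insert_of_mem (Finset.mem_union_left _ hs))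
  · intro s hs
    rw [Finset.mem_coe, Finset.mem_insert, Finset.mem_union, Finset.mem_image] at hs
    rcases hs with rfl | hs | ⟨t, ht, rfl⟩
    · exact Γ.one_mem
    · exact hS hs
    · exact Γ.inv_mem (hS ht)

/-- The relative theorem. -/
theorem smash_main (hA : IsHopfSubalgebra k (coradical k H)) {U : Submodule k H} (hU : IsHopfSubalgebra k U)
    (hcomm : ∀ a ∈ U ⊓ coradical k H, ∀ b ∈ U ⊓ coradical k H, a * b = b * a)
    (hnil : ∀ a ∈ U ⊓ coradical k H, ∀ x ∈ U, ∃ n : ℕ, (fun y => a * y - y * a)^[n] x = 0)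
    {Γ : Subgroup (GroupLike k H)} (hΓU : ∀ g ∈ Γ, ∀ x ∈ U, g.val * x * (g⁻¹).val ∈ U)
    (hspan : U * Submodule.span k (GroupLike.val '' (Γ : Set (GroupLike k H))) = ⊤)
    (h5 : ∀ S : Finset (GroupLike k H), (S : Set (GroupLike k H)) ⊆ Γ → ∀ a ∈ U ⊓ coradical k H,
      ∃ F : Submodule k H, F.FG ∧ a ∈ F ∧ ∀ s ∈ S, ∀ y ∈ F, s.val * y * (s⁻¹).val ∈ F) :
    GKdim k H = ⊤ ∨
      ((∀ S : Finset (GroupLike k H), (S : Set (GroupLike k H)) ⊆ Γ → ∀ V : Submodule k H, V.FG → V ≤ U →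
        ∃ C : Submodule k H, C.FG ∧ IsSubcoalgebra k C ∧ V ≤ C ∧ C ≤ U ∧
          ∀ s ∈ S, ∀ y ∈ C, s.val * y * (s⁻¹).val ∈ C) ∧
      ∃ m : ℕ, GKsub k U = GKsub k (U ⊓ coradical k H) + m ∧ GKdim k H = GKsub k (coradical k H) + m) := by
  classical
  by_cases htop : GKdim k H = ⊤
  · exact Or.inl htop
  right
  have hnil' : ∀ a ∈ U ⊓ coradical k H, ∀ x ∈ U, ∃ n : ℕ, ((cm k a)^[n]) x = 0 := by
    intro a ha x hx
    obtain ⟨n, hn⟩ := hnil a ha x hx
    refine ⟨n, ?_⟩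
    have : ((cm k a : H →ₗ[k] H) : H → H) = fun y => a * y - y * a := funext fun y => cm_apply k a y
    rw [this]
    exact hn
  have hst : ∀ S : Finset (GroupLike k H), (S : Set (GroupLike k H)) ⊆ Γ → Sym k S → ∀ V : Submodule k H, V.FG →
      V ≤ U → ∃ C : Submodule k H, Pre k C ∧ GKC.Stb k (S : Set (GroupLike k H)) C ∧ C ≤ U ∧ V ≤ C := by
    intro S hSΓ hS V hV hVU
    refine stable_exists hA hU hcomm hnil' hS ?_ ?_ htop hV hVU
    · intro s hs
      rw [Submodule.map_le_iff_le_comap]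
      intro y hy
      rw [Submodule.mem_comap, cj_apply, ← mul_assoc]
      exact hΓU s (hSΓ hs) y hy
    · intro a ha
      obtain ⟨F, h1, h2, h3⟩ := h5 S hSΓ a ha
      refine ⟨F, h1, ?_, h2⟩
      intro s hs
      rw [Submodule.map_le_iff_le_comap]
      intro y hy
      rw [Submodule.mem_comap, cj_apply, ← mul_assoc]
      exact h3 s hs y hy
  refine ⟨?_, ?_⟩
  · intro S hSΓ V hV hVU
    obtain ⟨T, hT, hST, hTΓ⟩ := exists_sym_in k S hSΓ
    obtain ⟨C, hC, hCT, hCU, hVC⟩ := hst T hTΓ hT V hV hVU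
    refine ⟨C, hC.fg, hC.sub, hVC, hCU, fun s hs y hy => ?_⟩
    have := hCT s (hST hs) (Submodule.mem_map_of_mem hy)
    rwa [cj_apply, ← mul_assoc] at this
  have hone : ∀ C : Submodule k H, (Pre k C ∧ C ≤ U) → ∃ r : ℕ, GKsub k (coradical k H) + r ≤ GKdim k H ∧
      GKsub k (U ⊓ coradical k H) + r ≤ GKsub k U ∧ asm_L k C ≤ GKsub k (U ⊓ coradical k H) + r ∧
      ∀ S : Finset (GroupLike k H), Sym k S → GKC.Stb k (S : Set (GroupLike k H)) C →
        asm_L k (C * kS k (S : Set (GroupLike k H))) ≤ GKsub k (coradical k H) + r := by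
    rintro C ⟨hC, hCU⟩
    have hCA : C ⊓ coradical k H ≤ U ⊓ coradical k H := inf_le_inf hCU le_rfl
    have hEf : (C ⊓ coradical k H).FG := fg_of_le' hC.fg inf_le_left
    obtain ⟨n, hn⟩ := exists_iter_U k hU.mul_le inf_le_left hcomm hnil' hEf hCA hC.fg hCU
    rcases one_preS k hA hC (fun a ha b hb => hcomm a (hCA ha) b (hCA hb)) n hn hU hCU with h | h
    · exact absurd h htop
    · exact h
  choose r hr1 hr2 hr3 hr4 using hone
  have hbdd : ∃ N : ℕ, ∀ (C : Submodule k H) (hC : Pre k C ∧ C ≤ U), r C hC ≤ N := by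
    by_contra hcon
    push Not at hcon
    apply htop
    rw [eq_top_iff]
    refine ENNReal.le_of_forall_nnreal_lt fun y hy => ?_
    obtain ⟨N, hN⟩ := exists_nat_ge y
    obtain ⟨C, hC, hlt⟩ := hcon N
    calc (y : ENNReal) ≤ (N : ENNReal) := by exact_mod_cast hN
      _ ≤ (r C hC : ENNReal) := by exact_mod_cast hlt.le
      _ ≤ GKsub k (coradical k H) + r C hC := le_add_self
      _ ≤ GKdim k H := hr1 C hC
  have hsym1 : Sym k ({1} : Finset (GroupLike k H)) := ⟨by simp, fun s hs => by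
    rw [Finset.mem_singleton] at hs ⊢
    rw [hs, inv_one]⟩
  have h1Γ : (({1} : Finset (GroupLike k H)) : Set (GroupLike k H)) ⊆ Γ := by
    rw [Finset.coe_singleton, Set.singleton_subset_iff]
    exact Γ.one_mem
  obtain ⟨C0, hC0, hmax⟩ : ∃ (C0 : Submodule k H) (hC0 : Pre k C0 ∧ C0 ≤ U), ∀ (C : Submodule k H)
      (hC : Pre k C ∧ C ≤ U), r C hC ≤ r C0 hC0 := by
    obtain ⟨N, hN⟩ := hbdd
    let S : Set ℕ := {t | ∃ (C : Submodule k H) (hC : Pre k C ∧ C ≤ U), r C hC = t}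
    have hS : S.Nonempty := by
      obtain ⟨C, hC, _, hCU, _⟩ := hst {1} h1Γ hsym1 (⊥ : Submodule k H) Submodule.fg_bot bot_le
      exact ⟨_, C, ⟨hC, hCU⟩, rfl⟩
    have hSb : BddAbove S := ⟨N, by rintro _ ⟨C, hC, rfl⟩; exact hN C hC⟩
    obtain ⟨C0, hC0, h0⟩ := Nat.sSup_mem hS hSb
    refine ⟨C0, hC0, fun C hC => ?_⟩
    rw [h0]
    exact le_csSup hSb ⟨C, hC, rfl⟩
  refine ⟨r C0 hC0, le_antisymm ?_ (hr2 C0 hC0), le_antisymm ?_ (hr1 C0 hC0)⟩
  · refine iSup₂_le fun V hV => ?_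
    obtain ⟨C, hC, _, hCU, hVC⟩ := hst {1} h1Γ hsym1 V hV.1.2 hV.2
    refine (asm_L_mono k hVC hC.fg).trans ((hr3 C ⟨hC, hCU⟩).trans ?_)
    exact add_le_add le_rfl (by exact_mod_cast hmax C ⟨hC, hCU⟩)
  · refine iSup₂_le fun V hV => ?_
    obtain ⟨D, S, hD, hDU, hSΓ, hVD⟩ := cover k (U := U) (Γ := (Γ : Set (GroupLike k H))) hV.2 (by
      rw [kS, hspan]; exact le_top)
    obtain ⟨T, hT, hST, hTΓ⟩ := exists_sym_in k S hSΓ
    obtain ⟨C, hC, hCT, hCU, hDC⟩ := hst T hTΓ hT D hD hDU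
    refine (asm_L_mono k (hVD.trans (mul_le_mul' hDC (kS_mono k hST))) (hC.fg.mul (kS_fg k T))).trans
      ((hr4 C ⟨hC, hCU⟩ T hT hCT).trans ?_)
    exact add_le_add le_rfl (by exact_mod_cast hmax C ⟨hC, hCU⟩)

end final

end Pool.Agent.GKV
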